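import Pool.Agent.Lib.PGC.Chain

/-!
# PGC.Kap: the interpolation grows when a vertex is added

PROOF of `act_lower` (`X ≥ 0` commutes with the unitary `W`): `act = (1-s) + s W`. For `c : ℂ`
`c • (act * X) + star (c • (act * X)) + 2 ‖c‖ • X ≥ 0`: it is the sum of
`(1 - s) (2 ‖c‖ + 2 re c) X ≥ 0` and `s (2 ‖c‖ X + c W X + star c W* X)`, and with `c = ‖c‖ ω`, `‖ω‖ = 1`,
`2 X + ω W X + star ω W* X = star (1 + ω W) * X * (1 + ω W) ≥ 0` (`star_mul_mul_nonneg`-type lemma,
`W* W = 1`, `W` commutes with `X`, `star W` too).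

PROOF of `kap` by strong induction on `W.card`, simultaneously `0 ≤ X U A s W`. `W = ∅`: `X = 1`. By
`X_rec` at `i` (`(insert i W).erase i = W`, `insert i W \ C.support = W \ C.support`),
`X(insert i W) = b_i X(W) + T`, `T = ∑_{C ∈ CZ (insert i W) i} wt C • (act C * X(W \ C))`; `X(insert i W)` and
`X(W)` are self-adjoint (`X_star`), so `2 T = T + star T ≥ - 2 ∑ ‖wt C‖ X(W \ C)` by `act_lower` (`X_comm`).
By `X_down` (induction) `X(W \ C) ≤ ∏_{v ∈ C.support.erase i} (9/10 b_v)⁻¹ X(W)`, and `ps1` gives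
`X(insert i W) ≥ (b_i - b_i/10) X(W)`.

PROOF of `X_down`: remove the vertices of `P` one by one: `X(W') ≥ (9/10) b_v X(W'.erase v)`.
-/

set_option autoImplicit false
set_option linter.unusedSectionVars false

open scoped ComplexOrder InnerProductSpace
open Finset Equiv

namespace PGC

open PGB

variable {V : Type*} [Fintype V] [DecidableEq V]
variable {H : Type*} [NormedAddCommGroup H] [InnerProductSpace ℂ H] [CompleteSpace H]

namespace KapAux

theorem sm_nonneg {r : ℝ} (hr : 0 ≤ r) {Y : H →L[ℂ] H} (hY : 0 ≤ Y) : 0 ≤ ((r : ℝ) : ℂ) • Y := by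
  rw [ContinuousLinearMap.nonneg_iff_isPositive] at hY ⊢
  exact hY.smul_of_nonneg (by exact_mod_cast hr)

theorem sm_mono {r : ℝ} (hr : 0 ≤ r) {Y Z : H →L[ℂ] H} (h : Y ≤ Z) :
    ((r : ℝ) : ℂ) • Y ≤ ((r : ℝ) : ℂ) • Z := by
  have h1 := sm_nonneg hr (sub_nonneg.mpr h)
  rw [smul_sub] at h1
  exact sub_nonneg.mp h1

theorem sm_mono_left {r t : ℝ} (hr : r ≤ t) {Y : H →L[ℂ] H} (hY : 0 ≤ Y) :
    ((r : ℝ) : ℂ) • Y ≤ ((t : ℝ) : ℂ) • Y := by
  have h1 := sm_nonneg (sub_nonneg.mpr hr) hY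
  rw [Complex.ofReal_sub, sub_smul] at h1
  exact sub_nonneg.mp h1

theorem sm_sm (r t : ℝ) (Y : H →L[ℂ] H) :
    ((r : ℝ) : ℂ) • (((t : ℝ) : ℂ) • Y) = ((r * t : ℝ) : ℂ) • Y := by
  rw [smul_smul, Complex.ofReal_mul]

theorem star_sm (r : ℝ) (Y : H →L[ℂ] H) :
    star (((r : ℝ) : ℂ) • Y) = ((r : ℝ) : ℂ) • star Y := by
  rw [star_smul]
  congr 1
  exact Complex.conj_ofReal r

end KapAux

open KapAux

theorem act_lower (U : Perm V →* (H →L[ℂ] H)) (hU : Uni U) (s : ℝ) (h0 : 0 ≤ s) (h1 : s ≤ 1)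
    (C : Perm V) (Y : H →L[ℂ] H) (hY : 0 ≤ Y) (hc : Commute (U C) Y) (c : ℂ) :
    0 ≤ c • (act U s C * Y) + star (c • (act U s C * Y)) + ((2 * ‖c‖ : ℝ) : ℂ) • Y := by
  by_cases hc0 : c = 0
  · rw [hc0]
    simp
  have hYs : star Y = Y := (IsSelfAdjoint.of_nonneg hY).star_eq
  have hn : 0 < ‖c‖ := norm_pos_iff.mpr hc0
  have hcY : U C * Y = Y * U C := hc.eq
  have hcY' : star (U C) * Y = Y * star (U C) := by
    have h2 := congrArg star hcY
    rw [star_mul, star_mul, hYs] at h2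
    exact h2.symm
  have hWW : star (U C) * U C = 1 := by
    rw [hU C, ← map_mul, inv_mul_cancel, map_one]
  -- first part
  have hp1 : 0 ≤ c • Y + star c • Y + ((2 * ‖c‖ : ℝ) : ℂ) • Y := by
    have he : c • Y + star c • Y + ((2 * ‖c‖ : ℝ) : ℂ) • Y = ((2 * c.re + 2 * ‖c‖ : ℝ) : ℂ) • Y := by
      rw [← add_smul, ← add_smul]
      congr 1
      apply Complex.ext
      · simp
        ring
      · simp
    rw [he]
    refine sm_nonneg ?_ hY
    have h2 := Complex.abs_re_le_norm c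
    have h3 := neg_abs_le c.re
    linarith
  -- second part
  have hp2 : 0 ≤ c • (U C * Y) + star c • (star (U C) * Y) + ((2 * ‖c‖ : ℝ) : ℂ) • Y := by
    have h2 : 0 ≤ star (((‖c‖ : ℝ) : ℂ) • (1 : H →L[ℂ] H) + c • U C) * Y *
        (((‖c‖ : ℝ) : ℂ) • (1 : H →L[ℂ] H) + c • U C) := star_left_conjugate_nonneg hY _
    have h3 : star (((‖c‖ : ℝ) : ℂ) • (1 : H →L[ℂ] H) + c • U C) * Y *
        (((‖c‖ : ℝ) : ℂ) • (1 : H →L[ℂ] H) + c • U C) =
        ((‖c‖ : ℝ) : ℂ) • (c • (U C * Y) + star c • (star (U C) * Y) + ((2 * ‖c‖ : ℝ) : ℂ) • Y) := by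
      rw [star_add, star_sm, star_smul, star_one]
      have e1 : star (U C) * Y * U C = Y := by
        rw [hcY', mul_assoc, hWW, mul_one]
      have e2 : star c * c = ((‖c‖ * ‖c‖ : ℝ) : ℂ) := by
        rw [show star c = (starRingEnd ℂ) c from rfl, mul_comm, Complex.mul_conj, Complex.normSq_eq_norm_sq, sq]
      simp only [add_mul, mul_add, smul_mul_assoc, mul_smul_comm, one_mul, mul_one, smul_add, smul_smul,
        e1, hcY]
      rw [← hcY]
      have e3 : c * star c = ((‖c‖ * ‖c‖ : ℝ) : ℂ) := by rw [mul_comm]; exact e2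
      have e4 : ((‖c‖ : ℝ) : ℂ) * ((2 * ‖c‖ : ℝ) : ℂ) =
          ((‖c‖ : ℝ) : ℂ) * ((‖c‖ : ℝ) : ℂ) + ((‖c‖ : ℝ) : ℂ) * ((‖c‖ : ℝ) : ℂ) := by
        push_cast
        ring
      rw [mul_comm c ((‖c‖ : ℝ) : ℂ), e3, e4, add_smul, Complex.ofReal_mul]
      abel
    rw [h3] at h2
    have h4 := sm_nonneg (inv_nonneg.mpr hn.le) h2
    rw [smul_smul, ← Complex.ofReal_mul, inv_mul_cancel₀ hn.ne', Complex.ofReal_one, one_smul] at h4
    exact h4
  have hfin : c • (act U s C * Y) + star (c • (act U s C * Y)) + ((2 * ‖c‖ : ℝ) : ℂ) • Y =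
      ((1 - s : ℝ) : ℂ) • (c • Y + star c • Y + ((2 * ‖c‖ : ℝ) : ℂ) • Y) +
      ((s : ℝ) : ℂ) • (c • (U C * Y) + star c • (star (U C) * Y) + ((2 * ‖c‖ : ℝ) : ℂ) • Y) := by
    have e5 : star (c • (act U s C * Y)) =
        ((1 - s : ℝ) : ℂ) • (star c • Y) + ((s : ℝ) : ℂ) • (star c • (star (U C) * Y)) := by
      rw [star_smul, star_mul, hYs]
      unfold act
      rw [star_add, star_sm, star_sm, star_one, mul_add, mul_smul_comm, mul_smul_comm, mul_one, ← hcY',
        smul_add, smul_comm (star c), smul_comm (star c)]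
    have e6 : c • (act U s C * Y) =
        ((1 - s : ℝ) : ℂ) • (c • Y) + ((s : ℝ) : ℂ) • (c • (U C * Y)) := by
      unfold act
      rw [add_mul, smul_mul_assoc, smul_mul_assoc, one_mul, smul_add, smul_comm c, smul_comm c]
    have e7 : ((2 * ‖c‖ : ℝ) : ℂ) • Y = ((1 - s : ℝ) : ℂ) • (((2 * ‖c‖ : ℝ) : ℂ) • Y) +
        ((s : ℝ) : ℂ) • (((2 * ‖c‖ : ℝ) : ℂ) • Y) := by
      rw [← add_smul, ← Complex.ofReal_add, sub_add_cancel, Complex.ofReal_one, one_smul]
    rw [e5, e6]
    nth_rewrite 1 [e7]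
    simp only [smul_add]
    abel
  rw [hfin]
  exact add_nonneg (sm_nonneg (sub_nonneg.mpr h1) hp1) (sm_nonneg h0 hp2)

namespace KapAux

/-- the comparison for removing several vertices -/
theorem down_aux (U : Perm V →* (H →L[ℂ] H)) (A : Matrix V V ℂ) (hA : Dom A) (s : ℝ)
    (W : Finset V)
    (ih : ∀ W' : Finset V, W' ⊂ W → ∀ i ∉ W', ((9 / 10 * bv A i : ℝ) : ℂ) • X U A s W' ≤
      X U A s (insert i W')) (P : Finset V) :
    P ⊆ W → X U A s (W \ P) ≤ ((∏ v ∈ P, (9 / 10 * bv A v)⁻¹ : ℝ) : ℂ) • X U A s W := by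
  induction P using Finset.induction_on with
  | empty =>
    intro _
    simp
  | insert a P ha hP =>
    intro hsub
    have haW : a ∈ W := hsub (Finset.mem_insert_self a P)
    have hPW : P ⊆ W := fun x hx => hsub (Finset.mem_insert_of_mem hx)
    have h1 := hP hPW
    have hss : W \ insert a P ⊂ W := by
      refine Finset.ssubset_iff_subset_ne.mpr ⟨Finset.sdiff_subset, ?_⟩
      intro h
      have h2 : a ∈ W \ insert a P := by rw [h]; exact haW
      exact (Finset.mem_sdiff.mp h2).2 (Finset.mem_insert_self a P)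
    have hna : a ∉ W \ insert a P := fun h2 =>
      (Finset.mem_sdiff.mp h2).2 (Finset.mem_insert_self a P)
    have hins : insert a (W \ insert a P) = W \ P := by
      ext x
      simp only [Finset.mem_insert, Finset.mem_sdiff, not_or]
      constructor
      · rintro (h | h)
        · rw [h]
          exact ⟨haW, ha⟩
        · exact ⟨h.1, h.2.2⟩
      · rintro ⟨h2, h3⟩
        by_cases h4 : x = a
        · exact Or.inl h4
        · exact Or.inr ⟨h2, h4, h3⟩
    have h2 := ih _ hss a hna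
    rw [hins] at h2
    have h3 := h2.trans h1
    have hb : 0 < 9 / 10 * bv A a := by
      have := hA.pos a
      unfold bv
      linarith
    have h4 := sm_mono (inv_nonneg.mpr hb.le) h3
    rw [sm_sm, sm_sm, inv_mul_cancel₀ hb.ne', Complex.ofReal_one, one_smul] at h4
    rw [Finset.prod_insert ha]
    exact h4

theorem entry (A : Matrix V V ℂ) (hA : Dom A) (i : V) : A i i = ((bv A i : ℝ) : ℂ) := by
  have h := hA.herm i i
  have h2 : (A i i).im = 0 := by
    have h3 := congrArg Complex.im h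
    rw [show star (A i i) = (starRingEnd ℂ) (A i i) from rfl, Complex.conj_im] at h3
    linarith
  apply Complex.ext
  · simp [bv]
  · simp [h2]

end KapAux

theorem kap (U : Perm V →* (H →L[ℂ] H)) (hU : Uni U) (A : Matrix V V ℂ) (hA : Dom A) (s : ℝ)
    (h0 : 0 ≤ s) (h1 : s ≤ 1) (W : Finset V) :
    0 ≤ X U A s W ∧ ∀ i ∉ W, ((9 / 10 * bv A i : ℝ) : ℂ) • X U A s W ≤ X U A s (insert i W) := by
  induction W using Finset.strongInduction with
  | H W ih =>
  have hpos : 0 ≤ X U A s W := by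
    rcases W.eq_empty_or_nonempty with he | ⟨a, ha⟩
    · rw [he, X_empty]
      exact zero_le_one
    · have h2 := ih (W.erase a) (Finset.erase_ssubset ha)
      have h3 := h2.2 a (Finset.notMem_erase a W)
      rw [Finset.insert_erase ha] at h3
      refine le_trans (sm_nonneg ?_ h2.1) h3
      have := hA.pos a
      unfold bv
      linarith
  refine ⟨hpos, fun i hi => ?_⟩
  have hrec := X_rec U A s (S := insert i W) (z := i) (Finset.mem_insert_self i W)
  rw [Finset.erase_insert hi] at hrec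
  -- facts about the cycles
  have hcyc : ∀ C ∈ CZ (insert i W) i, i ∈ C.support ∧ C.support ⊆ insert i W ∧
      insert i W \ C.support = W \ C.support.erase i ∧ C.support.erase i ⊆ W ∧
      insert i W \ C.support ⊂ W := by
    classical
    intro C hC
    simp only [CZ, Finset.mem_filter, Finset.mem_univ, true_and] at hC
    obtain ⟨hcy, hiC, hsub⟩ := hC
    have heq : insert i W \ C.support = W \ C.support.erase i := by
      ext x
      simp only [Finset.mem_sdiff, Finset.mem_insert, Finset.mem_erase, not_and]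
      constructor
      · rintro ⟨h2 | h2, h3⟩
        · exact absurd (h2 ▸ hiC) h3
        · exact ⟨h2, fun _ => h3⟩
      · rintro ⟨h2, h3⟩
        exact ⟨Or.inr h2, h3 (fun h4 => hi (h4 ▸ h2))⟩
    have hsubW : C.support.erase i ⊆ W := by
      intro x hx
      obtain ⟨h2, h3⟩ := Finset.mem_erase.mp hx
      exact (Finset.mem_insert.mp (hsub h3)).resolve_left h2
    refine ⟨hiC, hsub, heq, hsubW, ?_⟩
    rw [heq]
    refine Finset.ssubset_iff_subset_ne.mpr ⟨Finset.sdiff_subset, ?_⟩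
    intro h
    have hci : C i ≠ i := Perm.mem_support.mp hiC
    have h2 : C i ∈ C.support := Perm.apply_mem_support.mpr hiC
    have h3 : C i ∈ C.support.erase i := Finset.mem_erase.mpr ⟨hci, h2⟩
    have h4 : C i ∈ W \ C.support.erase i := by rw [h]; exact hsubW h3
    exact (Finset.mem_sdiff.mp h4).2 h3
  set T : H →L[ℂ] H := ∑ C ∈ CZ (insert i W) i,
    wt A C.support C • (act U s C * X U A s (insert i W \ C.support)) with hT
  have hXs : ∀ S : Finset V, star (X U A s S) = X U A s S := fun S =>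
    X_star U hU A s S fun a _ b _ => hA.herm a b
  have hAii := KapAux.entry A hA i
  have hTs : star T = T := by
    have h2 : T = X U A s (insert i W) - A i i • X U A s W := by
      rw [hrec]
      abel
    rw [h2, star_sub, hXs, hAii, star_sm, hXs]
  have hsum : 0 ≤ T + star T + ∑ C ∈ CZ (insert i W) i,
      ((2 * ‖wt A C.support C‖ : ℝ) : ℂ) • X U A s (insert i W \ C.support) := by
    rw [hT, star_sum, ← Finset.sum_add_distrib, ← Finset.sum_add_distrib]
    refine Finset.sum_nonneg fun C hC => ?_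
    obtain ⟨hiC, hsub, heq, hsubW, hss⟩ := hcyc C hC
    refine act_lower U hU s h0 h1 C _ (ih _ hss).1 ?_ _
    exact X_comm U A s Finset.disjoint_sdiff
  have hdown : ∀ C ∈ CZ (insert i W) i,
      ((2 * ‖wt A C.support C‖ : ℝ) : ℂ) • X U A s (insert i W \ C.support) ≤
      ((2 * (‖wt A C.support C‖ * ∏ v ∈ C.support.erase i, (9 / 10 * bv A v)⁻¹) : ℝ) : ℂ) •
        X U A s W := by
    intro C hC
    obtain ⟨hiC, hsub, heq, hsubW, hss⟩ := hcyc C hC
    have h2 := KapAux.down_aux U A hA s W (fun W' hW' => (ih W' hW').2) (C.support.erase i) hsubW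
    rw [← heq] at h2
    have h3 := sm_mono (by positivity : (0 : ℝ) ≤ 2 * ‖wt A C.support C‖) h2
    rw [sm_sm] at h3
    refine h3.trans (le_of_eq ?_)
    congr 2
    ring
  have hsum2 : ∑ C ∈ CZ (insert i W) i,
      ((2 * ‖wt A C.support C‖ : ℝ) : ℂ) • X U A s (insert i W \ C.support) ≤
      ((2 * (bv A i / 10) : ℝ) : ℂ) • X U A s W := by
    refine (Finset.sum_le_sum hdown).trans ?_
    rw [← Finset.sum_smul, ← Complex.ofReal_sum, ← Finset.mul_sum]
    refine sm_mono_left ?_ hpos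
    exact mul_le_mul_of_nonneg_left (ps1 A hA (insert i W) i) (by norm_num)
  have h2T : 0 ≤ ((2 : ℝ) : ℂ) • T + ((2 * (bv A i / 10) : ℝ) : ℂ) • X U A s W := by
    have h2 : T + star T = ((2 : ℝ) : ℂ) • T := by
      rw [hTs]
      push_cast
      rw [two_smul]
    rw [h2] at hsum
    exact hsum.trans (add_le_add le_rfl hsum2)
  have hT' : 0 ≤ T + ((bv A i / 10 : ℝ) : ℂ) • X U A s W := by
    have h2 := sm_nonneg (by norm_num : (0 : ℝ) ≤ 1 / 2) h2T
    rw [smul_add, sm_sm, sm_sm, show (1 / 2 * 2 : ℝ) = 1 by norm_num, Complex.ofReal_one, one_smul,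
      show (1 / 2 * (2 * (bv A i / 10)) : ℝ) = bv A i / 10 by ring] at h2
    exact h2
  rw [hrec, hAii]
  have h5 : ((bv A i : ℝ) : ℂ) • X U A s W + T - ((9 / 10 * bv A i : ℝ) : ℂ) • X U A s W =
      T + ((bv A i / 10 : ℝ) : ℂ) • X U A s W := by
    have h6 : ((bv A i : ℝ) : ℂ) • X U A s W = ((9 / 10 * bv A i : ℝ) : ℂ) • X U A s W +
        ((bv A i / 10 : ℝ) : ℂ) • X U A s W := by
      rw [← add_smul, ← Complex.ofReal_add]
      congr 2
      ring
    rw [h6]
    abel
  refine sub_nonneg.mp ?_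
  rw [h5]
  exact hT'

theorem X_down (U : Perm V →* (H →L[ℂ] H)) (hU : Uni U) (A : Matrix V V ℂ) (hA : Dom A) (s : ℝ)
    (h0 : 0 ≤ s) (h1 : s ≤ 1) (W P : Finset V) (hP : P ⊆ W) :
    X U A s (W \ P) ≤ ((∏ v ∈ P, (9 / 10 * bv A v)⁻¹ : ℝ) : ℂ) • X U A s W :=
  KapAux.down_aux U A hA s W (fun W' _ => (kap U hU A hA s h0 h1 W').2) P hP

end PGC
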