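import Pool.Agent.Lib.PGC.PS2
import Pool.Agent.Lib.PGC.Kap

/-!
# PGC.Asm: permanent on top for strongly diagonally dominant matrices

Notation: `X = X U A s`, `y a b = x - U (swap a b) x`, for a set `W` disjoint from `{a, b}`
`q W a b = re ⟪y a b, X W (y a b)⟫ ≥ 0`, `w = wv A`, `b = bv A`.

PROOF of `star_wt`: let `Q = X(univ \ C.support) ≥ 0` (`kap`) and `R` its positive square root
(`CFC.sqrt`, `R * R = Q`, `R ≥ 0`); `R` commutes with `U g` for all `g` supported in `C.support` because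
`Q` does (`Commute.cfc`-type lemma for `CFC.sqrt`). Apply `star_ineq` to the vector `R x`:
`⟪R x, R x - U C (R x)⟫ = ⟪x, Q (x - U C x)⟫ = ⟪x, (1 - U C) Q x⟫` and
`dd U (R x) i (C i) ^ 2 = ‖R (y i (C i))‖² = q i (C i)`.

PROOF of `dom_deriv`: `φ s = re ⟪x, X U A s univ x⟫`. By `X_deriv`
`- φ' s = ∑_{C ∈ CC univ} re (wt C * ⟪x, (1 - U C) X(univ \ C) x⟫)`.
(i) `card C.support = 2`: `C = swap a (C a)`, `wt C = w a (C a) ²`, and the term is
`½ w² q (univ \ C.support) a (C a) = ∑_{a ∈ C.support} ¼ w a (C a) ² q (univ \ {a, C a}) a (C a)`.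
(ii) `card ≥ 3`: by `star_wt` the term is at least
`- ¼ ‖wt C‖ ∑_{a ≠ v ∈ C.support} p_a p_v`, `p_a = sqrt (q (univ \ C.support) a (C a))`, and
`‖wt C‖ p_a p_v = (∏_{h ≠ a, v} w h (C h)) (w a (C a) p_a) (w v (C v) p_v)
 ≤ ½ (∏_{h ≠ a, v} w h (C h)) (λ (w a (C a) p_a)² + λ⁻¹ (w v (C v) p_v)²)`,
`λ = b v * b (C v) / (b a * b (C a))`. By symmetry the term is at least
`- ¼ ∑_{a ∈ C.support} w a (C a) ² ∑_{v ∈ C.support.erase a} (∏_{h ≠ a, v} w h (C h)) * λ * p_a²`, and
`p_a² ≤ ∏_{h ∈ C.support, h ≠ a, C a} (9/10 b h)⁻¹ * q (univ \ {a, C a}) a (C a)` by `X_down`.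
Now sum over `C` and `a`; collect the terms with `(a, C a) = (a, b)`, `a ≠ b`: (i) gives
`+ ¼ w a b ² q (univ \ {a, b}) a b` (one two-cycle `C = swap a b`), (ii) gives at least
`- ¼ w a b ² q (univ \ {a, b}) a b * 1` by `ps2`. So `φ' ≤ 0` on `[0, 1]`.

PROOF of `D_le_dom`: `φ` is antitone on `[0, 1]`, `X_one_eq`, `X_zero_eq`; `D U A univ` is self-adjoint
(`X_star`) and `pr A univ` is real (`star (pr A univ) = pr A univ` since `star (wt A S σ) = wt A S σ⁻¹`).
-/

set_option autoImplicit false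

open scoped ComplexOrder InnerProductSpace
open Finset Equiv

namespace PGC

open PGB

variable {V : Type*} [Fintype V] [DecidableEq V]
variable {H : Type*} [NormedAddCommGroup H] [InnerProductSpace ℂ H] [CompleteSpace H]

/-- the weighted defect of a transposition, squared -/
noncomputable def qq (U : Perm V →* (H →L[ℂ] H)) (A : Matrix V V ℂ) (s : ℝ) (x : H)
    (W : Finset V) (a b : V) : ℝ :=
  (⟪x - U (swap a b) x, X U A s W (x - U (swap a b) x)⟫_ℂ).re

namespace AsmAux

theorem star_mul_op (R : H →L[ℂ] H) (hR : star R = R) (x y : H) : ⟪x, R y⟫_ℂ = ⟪R x, y⟫_ℂ := by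
  have h : ContinuousLinearMap.adjoint R = R := hR
  nth_rewrite 1 [← h]
  rw [ContinuousLinearMap.adjoint_inner_right]

/-- square root of a positive operator, commuting with everything that commutes with it -/
theorem exists_root {Q : H →L[ℂ] H} (hQ : 0 ≤ Q) : ∃ R : H →L[ℂ] H, star R = R ∧ R * R = Q ∧
    ∀ T : H →L[ℂ] H, Commute T Q → Commute T R := by
  refine ⟨CFC.sqrt Q, ?_, CFC.sqrt_mul_sqrt_self Q hQ, ?_⟩
  · exact (CFC.sqrt_nonneg Q).isSelfAdjoint.star_eq
  · intro T hT
    exact (Commute.cfcₙ_nnreal hT.symm NNReal.sqrt).symm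

theorem swap_unit (U : Perm V →* (H →L[ℂ] H)) (i j : V) (x : H) :
    U (swap i j) (U (swap i j) x) = x := by
  have h : U (swap i j) * U (swap i j) = 1 := by
    rw [← map_mul, swap_mul_self, map_one]
  have h2 := congrArg (fun T : H →L[ℂ] H => T x) h
  simpa using h2

end AsmAux

theorem star_wt (U : Perm V →* (H →L[ℂ] H)) (hU : Uni U) (A : Matrix V V ℂ) (hA : Dom A) (s : ℝ)
    (h0 : 0 ≤ s) (h1 : s ≤ 1) (x : H) (C : Perm V) (hC : C.IsCycle) :
    4 * ‖⟪x, (1 - U C) (X U A s (univ \ C.support) x)⟫_ℂ‖ ≤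
      (∑ i ∈ C.support, √(qq U A s x (univ \ C.support) i (C i))) ^ 2 -
        ∑ i ∈ C.support, qq U A s x (univ \ C.support) i (C i) := by
  set W := (univ : Finset V) \ C.support with hW
  set Q := X U A s W with hQ
  have hQ0 : 0 ≤ Q := (kap U hU A hA s h0 h1 W).1
  obtain ⟨R, hR, hRR, hcom⟩ := AsmAux.exists_root hQ0
  have hcU : ∀ g : Perm V, g.support ⊆ C.support → Commute (U g) R := by
    intro g hg
    apply hcom
    apply X_comm
    rw [hW]
    exact Finset.disjoint_sdiff.mono_left hg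
  have hQx : ∀ y : H, Q y = R (R y) := by
    intro y
    rw [← hRR]
    rfl
  have hUR : ∀ g : Perm V, g.support ⊆ C.support → ∀ y, U g (R y) = R (U g y) := by
    intro g hg y
    have := congrArg (fun T : H →L[ℂ] H => T y) (hcU g hg).eq
    simpa using this
  have hq : ∀ i ∈ C.support, qq U A s x W i (C i) = dd U (R x) i (C i) ^ 2 := by
    intro i hi
    have hsw : (swap i (C i)).support ⊆ C.support := by
      intro j hj
      have hj' := (Perm.mem_support.1 hj)
      by_contra hjC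
      have h2 : j ≠ i := fun h => hjC (h ▸ hi)
      have h3 : j ≠ C i := fun h => hjC (h ▸ (Perm.apply_mem_support.2 hi))
      exact hj' (swap_apply_of_ne_of_ne h2 h3)
    unfold qq dd
    rw [← hQ, hQx, AsmAux.star_mul_op R hR, map_sub, ← hUR _ hsw]
    exact inner_self_eq_norm_sq (𝕜 := ℂ) _
  have e1 : ⟪x, (1 - U C) (Q x)⟫_ℂ = ⟪R x, R x - U C (R x)⟫_ℂ := by
    rw [← AsmAux.star_mul_op R hR, map_sub, ← hUR C subset_rfl, hQx]
    simp
  rw [e1]
  have h3 := star_ineq U hU (R x) C hC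
  have h4 : ∑ i ∈ C.support, qq U A s x W i (C i) = ∑ i ∈ C.support, dd U (R x) i (C i) ^ 2 :=
    Finset.sum_congr rfl hq
  have h5 : ∑ i ∈ C.support, √(qq U A s x W i (C i)) = ∑ i ∈ C.support, dd U (R x) i (C i) := by
    refine Finset.sum_congr rfl fun i hi => ?_
    rw [hq i hi]
    exact Real.sqrt_sq (norm_nonneg _)
  rw [h4, h5]
  exact h3

namespace AsmAux

theorem qq_nonneg {U : Perm V →* (H →L[ℂ] H)} {A : Matrix V V ℂ} {s : ℝ} {W : Finset V}
    (hX : 0 ≤ X U A s W) (x : H) (a b : V) : 0 ≤ qq U A s x W a b := by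
  rw [ContinuousLinearMap.nonneg_iff_isPositive] at hX
  exact hX.re_inner_nonneg_right _

theorem qq_mono {U : Perm V →* (H →L[ℂ] H)} {A : Matrix V V ℂ} {s c : ℝ} {W W' : Finset V}
    (hX : X U A s W ≤ (c : ℂ) • X U A s W') (x : H) (a b : V) :
    qq U A s x W a b ≤ c * qq U A s x W' a b := by
  rw [← sub_nonneg, ContinuousLinearMap.nonneg_iff_isPositive] at hX
  have h := hX.re_inner_nonneg_right (x - U (swap a b) x)
  unfold qq
  set y := x - U (swap a b) x
  rw [ContinuousLinearMap.sub_apply, inner_sub_right, ContinuousLinearMap.smul_apply,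
    inner_smul_right, map_sub] at h
  have h2 : RCLike.re ((c : ℂ) * ⟪y, X U A s W' y⟫_ℂ) = c * (⟪y, X U A s W' y⟫_ℂ).re := by
    simp
  rw [h2] at h
  have h3 : RCLike.re ⟪y, X U A s W y⟫_ℂ = (⟪y, X U A s W y⟫_ℂ).re := rfl
  rw [h3] at h
  linarith

theorem two_term (U : Perm V →* (H →L[ℂ] H)) (hU : Uni U) {a b : V} (Q : H →L[ℂ] H)
    (hc : Commute (U (swap a b)) Q) (x : H) :
    ⟪x, (U (swap a b) - 1) (Q x)⟫_ℂ =
      -(1 / 2) * ⟪x - U (swap a b) x, Q (x - U (swap a b) x)⟫_ℂ := by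
  set T := U (swap a b) with hT
  have hTs : star T = T := by
    rw [hT, hU, swap_inv]
  have hTT : ∀ y, T (T y) = y := fun y => swap_unit U a b y
  have hTQ : ∀ y, Q (T y) = T (Q y) := by
    intro y
    have := congrArg (fun S : H →L[ℂ] H => S y) hc.eq
    simpa using this.symm
  have e1 : ⟪T x, Q x⟫_ℂ = ⟪x, T (Q x)⟫_ℂ := (star_mul_op T hTs x (Q x)).symm
  have e2 : ⟪T x, T (Q x)⟫_ℂ = ⟪x, Q x⟫_ℂ := by
    rw [← star_mul_op T hTs, hTT]
  rw [map_sub, hTQ, inner_sub_left, inner_sub_right, inner_sub_right, e1, e2,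
    ContinuousLinearMap.sub_apply, inner_sub_right]
  simp only [ContinuousLinearMap.one_apply]
  ring

theorem wt_herm {A : Matrix V V ℂ} (hA : Dom A) (i j : V) : ‖A i j‖ = ‖A j i‖ := by
  rw [← hA.herm i j, norm_star]

theorem norm_wt {A : Matrix V V ℂ} (hA : Dom A) (C : Perm V) :
    ‖wt A C.support C‖ = ∏ i ∈ C.support, wv A i (C i) := by
  unfold wt wv
  rw [norm_prod]
  refine Finset.prod_congr rfl fun i hi => ?_
  have h : ¬ (i = C i) := fun h => (Perm.mem_support.1 hi) h.symm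
  rw [if_neg h, wt_herm hA]

theorem amgm {a b x y : ℝ} (ha : 0 < a) (hb : 0 < b) :
    2 * (x * y) ≤ (b / a) * x ^ 2 + (a / b) * y ^ 2 := by
  have h : 0 ≤ (b * x - a * y) ^ 2 / (a * b) := by positivity
  have e : (b * x - a * y) ^ 2 / (a * b) = (b / a) * x ^ 2 + (a / b) * y ^ 2 - 2 * (x * y) := by
    field_simp
    ring
  linarith

theorem amgm_sum {ι : Type*} [DecidableEq ι] (S : Finset ι) (w p lam : ι → ℝ)
    (hlam : ∀ i ∈ S, 0 < lam i) (hw : ∀ i, 0 ≤ w i) :
    (∏ i ∈ S, w i) * ((∑ i ∈ S, p i) ^ 2 - ∑ i ∈ S, p i ^ 2) ≤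
      ∑ a ∈ S, ∑ v ∈ S.erase a,
        (∏ h ∈ (S.erase a).erase v, w h) * (lam v / lam a) * (w a * p a) ^ 2 := by
  have e1 : (∏ i ∈ S, w i) * ((∑ i ∈ S, p i) ^ 2 - ∑ i ∈ S, p i ^ 2) =
      ∑ a ∈ S, ∑ v ∈ S.erase a,
        (∏ h ∈ (S.erase a).erase v, w h) * ((w a * p a) * (w v * p v)) := by
    have h1 : (∑ i ∈ S, p i) ^ 2 - ∑ i ∈ S, p i ^ 2 = ∑ a ∈ S, ∑ v ∈ S.erase a, p a * p v := by
      rw [sq, Finset.sum_mul_sum, ← Finset.sum_sub_distrib]
      refine Finset.sum_congr rfl fun a ha => ?_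
      rw [← Finset.add_sum_erase S _ ha]
      ring
    rw [h1, Finset.mul_sum]
    refine Finset.sum_congr rfl fun a ha => ?_
    rw [Finset.mul_sum]
    refine Finset.sum_congr rfl fun v hv => ?_
    rw [← Finset.mul_prod_erase S w ha, ← Finset.mul_prod_erase (S.erase a) w hv]
    ring
  have hcomm : ∑ a ∈ S, ∑ v ∈ S.erase a,
        (∏ h ∈ (S.erase a).erase v, w h) * (lam a / lam v) * (w v * p v) ^ 2 =
      ∑ a ∈ S, ∑ v ∈ S.erase a,
        (∏ h ∈ (S.erase a).erase v, w h) * (lam v / lam a) * (w a * p a) ^ 2 := by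
    rw [Finset.sum_comm' (t' := S) (s' := fun v => S.erase v)]
    · refine Finset.sum_congr rfl fun v _ => Finset.sum_congr rfl fun a _ => ?_
      rw [Finset.erase_right_comm]
    · intro a v
      simp only [Finset.mem_erase]
      constructor
      · rintro ⟨h1, h2, h3⟩
        exact ⟨⟨fun h => h2 h.symm, h1⟩, h3⟩
      · rintro ⟨⟨h1, h2⟩, h3⟩
        exact ⟨h2, fun h => h1 h.symm, h3⟩
  have hle : ∑ a ∈ S, ∑ v ∈ S.erase a,
        (∏ h ∈ (S.erase a).erase v, w h) * (2 * ((w a * p a) * (w v * p v))) ≤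
      ∑ a ∈ S, ∑ v ∈ S.erase a,
        ((∏ h ∈ (S.erase a).erase v, w h) * (lam v / lam a) * (w a * p a) ^ 2 +
          (∏ h ∈ (S.erase a).erase v, w h) * (lam a / lam v) * (w v * p v) ^ 2) := by
    refine Finset.sum_le_sum fun a ha => Finset.sum_le_sum fun v hv => ?_
    have h1 := amgm (x := w a * p a) (y := w v * p v) (hlam a ha)
      (hlam v (Finset.mem_of_mem_erase hv))
    have h2 : 0 ≤ ∏ h ∈ (S.erase a).erase v, w h := Finset.prod_nonneg fun h _ => hw h
    have h3 := mul_le_mul_of_nonneg_left h1 h2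
    linarith
  have e2 : ∑ a ∈ S, ∑ v ∈ S.erase a,
        (∏ h ∈ (S.erase a).erase v, w h) * (2 * ((w a * p a) * (w v * p v))) =
      2 * ∑ a ∈ S, ∑ v ∈ S.erase a,
        (∏ h ∈ (S.erase a).erase v, w h) * ((w a * p a) * (w v * p v)) := by
    rw [Finset.mul_sum]
    refine Finset.sum_congr rfl fun a _ => ?_
    rw [Finset.mul_sum]
    refine Finset.sum_congr rfl fun v _ => ?_
    ring
  rw [e2] at hle
  simp only [Finset.sum_add_distrib] at hle
  rw [hcomm] at hle
  rw [e1]
  linarith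

/-- the quantity attached to an ordered pair -/
noncomputable def K (U : Perm V →* (H →L[ℂ] H)) (A : Matrix V V ℂ) (s : ℝ) (x : H)
    (a b : V) : ℝ :=
  1 / 4 * wv A a b ^ 2 * qq U A s x (univ \ {a, b}) a b

/-- the coefficient of a long cycle at an edge -/
noncomputable def F (A : Matrix V V ℂ) (C : Perm V) (a b : V) : ℝ :=
  ∑ v ∈ C.support.erase a,
    (∏ h ∈ (C.support.erase a).erase v, wv A h (C h)) *
      (bv A v * bv A (C v) / (bv A a * bv A b)) *
      ∏ h ∈ (C.support.erase a).erase b, (9 / 10 * bv A h)⁻¹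

open Classical in
/-- the coefficient of a cycle at an edge -/
noncomputable def G (A : Matrix V V ℂ) (C : Perm V) (a b : V) : ℝ :=
  if C.support.card = 2 then -1 else F A C a b

theorem wv_nonneg (A : Matrix V V ℂ) (i j : V) : 0 ≤ wv A i j := by
  unfold wv
  split_ifs
  · exact le_rfl
  · exact norm_nonneg _

theorem term_le {U : Perm V →* (H →L[ℂ] H)} (c : ℂ) (C : Perm V) (Q : H →L[ℂ] H) (x : H) :
    (⟪x, (c • ((U C - 1) * Q)) x⟫_ℂ).re ≤ ‖c‖ * ‖⟪x, (1 - U C) (Q x)⟫_ℂ‖ := by
  have e : ⟪x, (c • ((U C - 1) * Q)) x⟫_ℂ = -(c * ⟪x, (1 - U C) (Q x)⟫_ℂ) := by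
    rw [ContinuousLinearMap.smul_apply, inner_smul_right]
    have h : ((U C - 1) * Q) x = -((1 - U C) (Q x)) := by
      simp
    rw [h, inner_neg_right]
    ring
  rw [e]
  calc (-(c * ⟪x, (1 - U C) (Q x)⟫_ℂ)).re ≤ ‖-(c * ⟪x, (1 - U C) (Q x)⟫_ℂ)‖ :=
        Complex.re_le_norm _
    _ = ‖c‖ * ‖⟪x, (1 - U C) (Q x)⟫_ℂ‖ := by rw [norm_neg, norm_mul]

theorem cyc_long (U : Perm V →* (H →L[ℂ] H)) (hU : Uni U) (A : Matrix V V ℂ) (hA : Dom A)
    (s : ℝ) (h0 : 0 ≤ s) (h1 : s ≤ 1) (x : H) (C : Perm V) (hC : C.IsCycle) :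
    (⟪x, (wt A C.support C • ((U C - 1) * X U A s (univ \ C.support))) x⟫_ℂ).re ≤
      ∑ a ∈ C.support, K U A s x a (C a) * F A C a (C a) := by
  have hb : ∀ i, 0 < bv A i := fun i => hA.pos i
  have hQ0 : 0 ≤ X U A s (univ \ C.support) := (kap U hU A hA s h0 h1 _).1
  have t1 := term_le (U := U) (wt A C.support C) C (X U A s (univ \ C.support)) x
  have t2 := star_wt U hU A hA s h0 h1 x C hC
  set p : V → ℝ := fun i => √(qq U A s x (univ \ C.support) i (C i)) with hp
  have hp2 : ∀ i, p i ^ 2 = qq U A s x (univ \ C.support) i (C i) := by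
    intro i
    rw [hp]
    exact Real.sq_sqrt (qq_nonneg hQ0 x i (C i))
  have t3 := amgm_sum C.support (fun i => wv A i (C i)) p (fun i => bv A i * bv A (C i))
    (fun i _ => mul_pos (hb i) (hb (C i))) (fun i => wv_nonneg A i (C i))
  rw [← norm_wt hA] at t3
  have t4 : ∑ i ∈ C.support, p i ^ 2 =
      ∑ i ∈ C.support, qq U A s x (univ \ C.support) i (C i) :=
    Finset.sum_congr rfl fun i _ => hp2 i
  rw [t4] at t3
  have t5 : (∑ i ∈ C.support, p i) ^ 2 =
      (∑ i ∈ C.support, √(qq U A s x (univ \ C.support) i (C i))) ^ 2 := rfl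
  rw [t5] at t3
  have t6 : (⟪x, (wt A C.support C • ((U C - 1) * X U A s (univ \ C.support))) x⟫_ℂ).re ≤
      1 / 4 * ∑ a ∈ C.support, ∑ v ∈ C.support.erase a,
        (∏ h ∈ (C.support.erase a).erase v, wv A h (C h)) *
          (bv A v * bv A (C v) / (bv A a * bv A (C a))) * (wv A a (C a) * p a) ^ 2 := by
    have h3 := mul_le_mul_of_nonneg_left t2 (norm_nonneg (wt A C.support C))
    linarith
  refine t6.trans ?_
  rw [Finset.mul_sum]
  refine Finset.sum_le_sum fun a ha => ?_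
  have hCa : C a ∈ C.support := Perm.apply_mem_support.2 ha
  have hdown := X_down U hU A hA s h0 h1 (univ \ {a, C a}) ((C.support.erase a).erase (C a)) (by
    intro h hh
    simp only [Finset.mem_erase] at hh
    simp only [Finset.mem_sdiff, Finset.mem_univ, true_and, Finset.mem_insert,
      Finset.mem_singleton, not_or]
    exact ⟨hh.2.1, hh.1⟩)
  have hset : (univ \ {a, C a}) \ (C.support.erase a).erase (C a) = univ \ C.support := by
    ext h
    simp only [Finset.mem_sdiff, Finset.mem_univ, true_and, Finset.mem_insert,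
      Finset.mem_singleton, Finset.mem_erase, not_or, not_and]
    constructor
    · rintro ⟨⟨h2, h3⟩, h4⟩
      exact h4 h3 h2
    · intro h2
      refine ⟨⟨fun h3 => h2 (h3 ▸ ha), fun h3 => h2 (h3 ▸ hCa)⟩, fun _ _ => h2⟩
  rw [hset] at hdown
  have hq := qq_mono hdown x a (C a)
  rw [← hp2] at hq
  set D := ∏ v ∈ (C.support.erase a).erase (C a), (9 / 10 * bv A v)⁻¹ with hD
  have hF : K U A s x a (C a) * F A C a (C a) =
      1 / 4 * ∑ v ∈ C.support.erase a,
        (∏ h ∈ (C.support.erase a).erase v, wv A h (C h)) *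
          (bv A v * bv A (C v) / (bv A a * bv A (C a))) *
          (wv A a (C a) ^ 2 * (D * qq U A s x (univ \ {a, C a}) a (C a))) := by
    unfold K F
    rw [← hD, Finset.mul_sum, Finset.mul_sum]
    refine Finset.sum_congr rfl fun v _ => ?_
    ring
  rw [hF]
  refine mul_le_mul_of_nonneg_left (Finset.sum_le_sum fun v _ => ?_) (by norm_num)
  refine mul_le_mul_of_nonneg_left ?_ ?_
  · rw [mul_pow]
    exact mul_le_mul_of_nonneg_left hq (sq_nonneg _)
  · refine mul_nonneg (Finset.prod_nonneg fun h _ => wv_nonneg A _ _) ?_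
    have := hb v
    have := hb (C v)
    have := hb a
    have := hb (C a)
    positivity

theorem cyc_two (U : Perm V →* (H →L[ℂ] H)) (hU : Uni U) (A : Matrix V V ℂ) (hA : Dom A)
    (s : ℝ) (x : H) (C : Perm V) (h2 : C.support.card = 2) :
    (⟪x, (wt A C.support C • ((U C - 1) * X U A s (univ \ C.support))) x⟫_ℂ).re ≤
      ∑ a ∈ C.support, K U A s x a (C a) * (-1) := by
  obtain ⟨a, b, hab, rfl⟩ := Perm.card_support_eq_two.1 h2
  rw [Perm.support_swap hab]
  set Q := X U A s (univ \ {a, b}) with hQ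
  have hc : Commute (U (swap a b)) Q := by
    apply X_comm
    rw [Perm.support_swap hab]
    exact Finset.disjoint_sdiff
  have ht := two_term U hU Q hc x
  have hw : wt A {a, b} (swap a b) = ((‖A a b‖ ^ 2 : ℝ) : ℂ) := by
    unfold wt
    rw [Finset.prod_pair hab, swap_apply_left, swap_apply_right, ← hA.herm a b]
    rw [← Complex.normSq_eq_norm_sq, Complex.normSq_eq_conj_mul_self]
    rfl
  have e1 : ⟪x, (wt A {a, b} (swap a b) • ((U (swap a b) - 1) * Q)) x⟫_ℂ =
      ((‖A a b‖ ^ 2 : ℝ) : ℂ) * (-(1 / 2) *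
        ⟪x - U (swap a b) x, Q (x - U (swap a b) x)⟫_ℂ) := by
    rw [ContinuousLinearMap.smul_apply, inner_smul_right, hw, ← ht]
    rfl
  have e2 : (⟪x, (wt A {a, b} (swap a b) • ((U (swap a b) - 1) * Q)) x⟫_ℂ).re =
      -(1 / 2) * ‖A a b‖ ^ 2 * qq U A s x (univ \ {a, b}) a b := by
    rw [e1, Complex.re_ofReal_mul]
    have h3 : (-(1 / 2) : ℂ) = ((-(1 / 2) : ℝ) : ℂ) := by push_cast; ring
    rw [h3, Complex.re_ofReal_mul]
    unfold qq
    ring
  rw [e2, Finset.sum_pair hab, swap_apply_left, swap_apply_right]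
  have e3 : K U A s x b a = K U A s x a b := by
    unfold K qq wv
    rw [Finset.pair_comm b a, swap_comm b a, if_neg hab, if_neg (Ne.symm hab), wt_herm hA b a]
  rw [e3]
  unfold K wv
  rw [if_neg hab]
  apply le_of_eq
  ring

end AsmAux

theorem dom_deriv (U : Perm V →* (H →L[ℂ] H)) (hU : Uni U) (A : Matrix V V ℂ) (hA : Dom A)
    (s : ℝ) (h0 : 0 ≤ s) (h1 : s ≤ 1) (x : H) :
    (⟪x, (∑ C ∈ CC (univ : Finset V), wt A C.support C •
      ((U C - 1) * X U A s (univ \ C.support))) x⟫_ℂ).re ≤ 0 := by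
  classical
  have hCC : ∀ C : Perm V, C ∈ CC (univ : Finset V) ↔ C.IsCycle := by
    intro C
    simp [CC]
  have e1 : (⟪x, (∑ C ∈ CC (univ : Finset V), wt A C.support C •
      ((U C - 1) * X U A s (univ \ C.support))) x⟫_ℂ).re =
      ∑ C ∈ CC (univ : Finset V), (⟪x, (wt A C.support C •
        ((U C - 1) * X U A s (univ \ C.support))) x⟫_ℂ).re := by
    rw [ContinuousLinearMap.sum_apply, inner_sum, Complex.re_sum]
  rw [e1]
  have e2 : ∀ C ∈ CC (univ : Finset V), (⟪x, (wt A C.support C •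
        ((U C - 1) * X U A s (univ \ C.support))) x⟫_ℂ).re ≤
      ∑ a ∈ C.support, AsmAux.K U A s x a (C a) * AsmAux.G A C a (C a) := by
    intro C hC
    unfold AsmAux.G
    split_ifs with h2
    · exact AsmAux.cyc_two U hU A hA s x C h2
    · exact AsmAux.cyc_long U hU A hA s h0 h1 x C ((hCC C).1 hC)
  refine (Finset.sum_le_sum e2).trans ?_
  have e3 : ∀ C : Perm V, ∑ a ∈ C.support, AsmAux.K U A s x a (C a) * AsmAux.G A C a (C a) =
      ∑ a : V, ∑ b : V, if C a = b ∧ a ≠ b then AsmAux.K U A s x a b * AsmAux.G A C a b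
        else 0 := by
    intro C
    have hs : C.support = univ.filter fun a => C a ≠ a := by
      ext a
      simp [Perm.mem_support]
    rw [hs, Finset.sum_filter]
    refine Finset.sum_congr rfl fun a _ => ?_
    rw [Finset.sum_eq_single (C a)]
    · by_cases h : C a = a
      · rw [if_neg (by simpa using h), if_neg (by simp [h])]
      · rw [if_pos h, if_pos ⟨rfl, fun h' => h h'.symm⟩]
    · intro b _ hb
      rw [if_neg (fun h => hb h.1.symm)]
    · intro h
      exact absurd (Finset.mem_univ _) h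
  simp only [e3]
  rw [Finset.sum_comm]
  refine Finset.sum_nonpos fun a _ => ?_
  rw [Finset.sum_comm]
  refine Finset.sum_nonpos fun b _ => ?_
  by_cases hab : a = b
  · refine Finset.sum_nonpos fun C _ => ?_
    rw [if_neg (fun h => h.2 hab)]
  · have e4 : ∑ C ∈ CC (univ : Finset V), (if C a = b ∧ a ≠ b then
        AsmAux.K U A s x a b * AsmAux.G A C a b else 0) =
        AsmAux.K U A s x a b * ∑ C ∈ (CC (univ : Finset V)).filter (fun C => C a = b),
          AsmAux.G A C a b := by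
      rw [Finset.mul_sum, Finset.sum_filter]
      refine Finset.sum_congr rfl fun C _ => ?_
      by_cases h : C a = b
      · rw [if_pos ⟨h, hab⟩, if_pos h]
      · rw [if_neg (fun h' => h h'.1), if_neg h]
    rw [e4]
    have hK : 0 ≤ AsmAux.K U A s x a b := by
      unfold AsmAux.K
      exact mul_nonneg (by positivity) (AsmAux.qq_nonneg (kap U hU A hA s h0 h1 _).1 x a b)
    refine mul_nonpos_of_nonneg_of_nonpos hK ?_
    rw [← Finset.sum_filter_add_sum_filter_not _ (fun C : Perm V => C.support.card = 2)]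
    have p1 : ∑ C ∈ ((CC (univ : Finset V)).filter (fun C => C a = b)).filter
        (fun C : Perm V => C.support.card = 2), AsmAux.G A C a b ≤ -1 := by
      have h3 : ∑ C ∈ ((CC (univ : Finset V)).filter (fun C => C a = b)).filter
          (fun C : Perm V => C.support.card = 2), AsmAux.G A C a b =
          ∑ C ∈ ((CC (univ : Finset V)).filter (fun C => C a = b)).filter
          (fun C : Perm V => C.support.card = 2), (-1 : ℝ) := by
        refine Finset.sum_congr rfl fun C hC => ?_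
        unfold AsmAux.G
        rw [if_pos (Finset.mem_filter.1 hC).2]
      rw [h3, Finset.sum_const]
      have h4 : 0 < (((CC (univ : Finset V)).filter (fun C => C a = b)).filter
          (fun C : Perm V => C.support.card = 2)).card := by
        rw [Finset.card_pos]
        refine ⟨swap a b, ?_⟩
        rw [Finset.mem_filter, Finset.mem_filter, hCC]
        exact ⟨⟨Perm.isCycle_swap hab, swap_apply_left a b⟩, Perm.card_support_swap hab⟩
      have h5 : (1 : ℝ) ≤ ((((CC (univ : Finset V)).filter (fun C => C a = b)).filter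
          (fun C : Perm V => C.support.card = 2)).card : ℝ) := by
        exact_mod_cast h4
      rw [nsmul_eq_mul]
      linarith
    have p2 : ∑ C ∈ ((CC (univ : Finset V)).filter (fun C => C a = b)).filter
        (fun C : Perm V => ¬ C.support.card = 2), AsmAux.G A C a b ≤ 1 := by
      have h3 := ps2 A hA a b hab
      refine le_trans (le_of_eq ?_) h3
      refine Finset.sum_congr ?_ fun C hC => ?_
      · ext C
        rw [Finset.mem_filter, Finset.mem_filter, Finset.mem_filter, hCC]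
        constructor
        · rintro ⟨⟨h4, h5⟩, h6⟩
          have := h4.two_le_card_support
          exact ⟨h4, h5, by omega⟩
        · rintro ⟨h4, h5, h6⟩
          exact ⟨⟨h4, h5⟩, by omega⟩
      · unfold AsmAux.G
        rw [Finset.mem_filter] at hC
        rw [if_neg (by omega)]
        rfl
    linarith

theorem D_le_dom (U : Perm V →* (H →L[ℂ] H)) (hU : Uni U) (A : Matrix V V ℂ) (hA : Dom A) :
    D U A univ ≤ pr A univ • (1 : H →L[ℂ] H) := by
  rw [← X_one_eq, ← X_zero_eq, ← sub_nonneg, ContinuousLinearMap.nonneg_iff_isPositive,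
    ContinuousLinearMap.isPositive_def']
  have hst : ∀ s : ℝ, star (X U A s univ) = X U A s univ := fun s =>
    X_star U hU A s univ fun i _ j _ => hA.herm i j
  refine ⟨?_, fun x => ?_⟩
  · show star (X U A 0 univ - X U A 1 univ) = X U A 0 univ - X U A 1 univ
    rw [star_sub, hst, hst]
  · let L : (H →L[ℂ] H) →L[ℝ] ℝ :=
      Complex.reCLM.comp (((innerSL ℂ x).restrictScalars ℝ).comp
        ((ContinuousLinearMap.apply ℂ H x).restrictScalars ℝ))
    have hL : ∀ T : H →L[ℂ] H, L T = (⟪x, T x⟫_ℂ).re := fun T => rfl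
    have hd : ∀ s : ℝ, HasDerivAt (fun s : ℝ => L (X U A s univ))
        (L (∑ C ∈ CC (univ : Finset V), wt A C.support C •
          ((U C - 1) * X U A s (univ \ C.support)))) s := by
      intro s
      exact L.hasFDerivAt.comp_hasDerivAt s (X_deriv U A univ s)
    have hanti : AntitoneOn (fun s : ℝ => L (X U A s univ)) (Set.Icc 0 1) := by
      refine antitoneOn_of_deriv_nonpos (convex_Icc 0 1) ?_ ?_ ?_
      · exact fun s _ => (hd s).continuousAt.continuousWithinAt
      · exact fun s _ => (hd s).differentiableAt.differentiableWithinAt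
      · intro s hs
        rw [interior_Icc] at hs
        rw [(hd s).deriv, hL]
        exact dom_deriv U hU A hA s hs.1.le hs.2.le x
    have h2 := hanti (Set.left_mem_Icc.2 zero_le_one) (Set.right_mem_Icc.2 zero_le_one)
      zero_le_one
    simp only [hL] at h2
    have h3 : (X U A 0 univ - X U A 1 univ).reApplyInnerSelf x =
        (⟪x, X U A 0 univ x⟫_ℂ).re - (⟪x, X U A 1 univ x⟫_ℂ).re := by
      rw [ContinuousLinearMap.reApplyInnerSelf_apply, ContinuousLinearMap.sub_apply,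
        inner_sub_left, map_sub, inner_re_symm, inner_re_symm (𝕜 := ℂ) (X U A 1 univ x)]
      rfl
    rw [h3]
    linarith

end PGC
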