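import Pool.Agent.Lib.PGC.Defs

/-!
# PGC.Chain: sums over walks and over cycles through a vertex

PROOF of `om_sum`: induction on `k`, `∑_{f : Fin (k+1) → V}` is a sum over `f 0` and over the rest
(`Fin.consEquiv` or `Fin.consPiProd`, `Fintype.sum_prod_type`), and
`∑_j wv A i j / bv A i ≤ 1/4` by `Dom`.

PROOF of `om_cycle`. Let `f t = (C ^ (t+1)) i`. By induction on `k`,
`om A k i f = ∏_{t < k} wv A ((C^t) i) ((C^(t+1)) i) / bv A ((C^t) i)` for every permutation `C`.

PROOF of `ps1`. For `C ∈ CZ W i` let `k + 1 = C.support.card`; `t ↦ (C ^ t) i`, `t = 0, ..., k`, is a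
bijection of `Fin (k+1)` onto the support (`Equiv.Perm.IsCycle`: order of `C` is the cardinality of the
support), so `‖wt A C.support C‖ = ∏_{t ≤ k} wv ((C^t) i) ((C^(t+1)) i)` (`‖A (C v) v‖ = ‖A v (C v)‖`) and
`‖wt‖ * ∏_{v ∈ support, v ≠ i} (9/10 * bv v)⁻¹
  = (10/9)^k * bv i * om A k i f * (wv ((C^k) i) i / bv ((C^k) i)) ≤ (10/9)^k * bv i * om A k i f / 4`.
The map `C ↦ f` is injective on the cycles through `i` with support of cardinality `k + 1`, so by `om_sum`
the sum over these cycles is at most `bv i / 4 * (10/9)^k * (1/4)^k = bv i / 4 * (5/18)^k`, `k ≥ 1`, and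
`∑_{k ≥ 1} (5/18)^k = 5/13`, `5/52 ≤ 1/10`.
-/

set_option autoImplicit false

open scoped ComplexOrder
open Finset Equiv

namespace PGC

open PGB

variable {V : Type*} [Fintype V] [DecidableEq V]

namespace ChainAux

theorem wv_nonneg (A : Matrix V V ℂ) (i j : V) : 0 ≤ wv A i j := by
  unfold wv
  split_ifs
  · exact le_rfl
  · exact norm_nonneg _

theorem wv_sum (A : Matrix V V ℂ) (hA : Dom A) (i : V) : ∑ j, wv A i j ≤ bv A i / 4 := by
  rw [← Finset.add_sum_erase univ _ (mem_univ i)]
  have h1 : wv A i i = 0 := if_pos rfl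
  rw [h1, zero_add]
  refine le_trans (le_of_eq (Finset.sum_congr rfl fun j hj => ?_)) (hA.dom i)
  exact if_neg (Ne.symm (ne_of_mem_erase hj))

end ChainAux

open ChainAux

theorem om_nonneg (A : Matrix V V ℂ) (hA : Dom A) (k : ℕ) (i : V) (f : Fin k → V) :
    0 ≤ om A k i f := by
  induction k generalizing i with
  | zero => exact zero_le_one
  | succ k ih =>
    exact mul_nonneg (div_nonneg (wv_nonneg A _ _) (hA.pos i).le) (ih _ _)

theorem om_sum (A : Matrix V V ℂ) (hA : Dom A) (k : ℕ) (i : V) :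
    ∑ f : Fin k → V, om A k i f ≤ (1 / 4) ^ k := by
  induction k generalizing i with
  | zero =>
    rw [pow_zero, Fintype.sum_unique]
    exact le_rfl
  | succ k ih =>
    have e : ∑ f : Fin (k + 1) → V, om A (k + 1) i f =
        ∑ j : V, wv A i j / bv A i * ∑ g : Fin k → V, om A k j g := by
      rw [← (Fin.consEquiv (fun _ : Fin (k + 1) => V)).sum_comp, Fintype.sum_prod_type]
      refine Finset.sum_congr rfl fun j _ => ?_
      rw [Finset.mul_sum]
      refine Finset.sum_congr rfl fun g _ => ?_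
      rfl
    rw [e]
    have hb : 0 < bv A i := hA.pos i
    calc ∑ j : V, wv A i j / bv A i * ∑ g : Fin k → V, om A k j g
        ≤ ∑ j : V, wv A i j / bv A i * (1 / 4) ^ k :=
          Finset.sum_le_sum fun j _ =>
            mul_le_mul_of_nonneg_left (ih j) (div_nonneg (wv_nonneg A _ _) hb.le)
      _ = (∑ j : V, wv A i j) / bv A i * (1 / 4) ^ k := by
          rw [← Finset.sum_mul, Finset.sum_div]
      _ ≤ 1 / 4 * (1 / 4) ^ k := by
          refine mul_le_mul_of_nonneg_right ?_ (by positivity)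
          rw [div_le_iff₀ hb]
          linarith [wv_sum A hA i]
      _ = (1 / 4) ^ (k + 1) := by rw [pow_succ']

theorem om_cycle (A : Matrix V V ℂ) (k : ℕ) (i : V) (C : Perm V) :
    om A k i (fun t => (C ^ ((t : ℕ) + 1)) i) =
      ∏ t ∈ range k, wv A ((C ^ t) i) ((C ^ (t + 1)) i) / bv A ((C ^ t) i) := by
  induction k generalizing i with
  | zero => rfl
  | succ k ih =>
    rw [Finset.prod_range_succ']
    have e : om A (k + 1) i (fun t => (C ^ ((t : ℕ) + 1)) i) =
        wv A i (C i) / bv A i * om A k (C i) (fun t => (C ^ ((t : ℕ) + 1)) (C i)) := by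
      change wv A i ((C ^ (((0 : Fin (k + 1)) : ℕ) + 1)) i) / bv A i *
        om A k ((C ^ (((0 : Fin (k + 1)) : ℕ) + 1)) i)
          (fun t => (C ^ (((t.succ : Fin (k + 1)) : ℕ) + 1)) i) = _
      have e1 : (C ^ (((0 : Fin (k + 1)) : ℕ) + 1)) i = C i := by simp
      rw [e1]
      congr 1
    rw [e, ih, mul_comm]
    congr 1

namespace ChainAux

theorem pow_inj {C : Perm V} (hC : C.IsCycle) {i : V} (hi : i ∈ C.support) {s t : ℕ}
    (hs : s < C.support.card) (ht : t < C.support.card) (h : (C ^ s) i = (C ^ t) i) : s = t := by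
  wlog hst : s ≤ t generalizing s t
  · exact (this ht hs h.symm (le_of_not_ge hst)).symm
  have h1 : (C ^ (t - s)) i = i := by
    have h2 : C ^ t = C ^ s * C ^ (t - s) := by
      rw [← pow_add]
      congr 1
      omega
    rw [h2, Perm.mul_apply] at h
    exact ((C ^ s).injective h).symm
  have h3 : C ^ (t - s) = 1 := (hC.pow_eq_one_iff).2 ⟨i, Perm.mem_support.1 hi, h1⟩
  have h4 : orderOf C ∣ t - s := orderOf_dvd_of_pow_eq_one h3
  rw [hC.orderOf] at h4
  have h5 := Nat.eq_zero_of_dvd_of_lt h4 (by omega)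
  omega

theorem supp_image {C : Perm V} (hC : C.IsCycle) {i : V} (hi : i ∈ C.support) :
    (range C.support.card).image (fun t => (C ^ t) i) = C.support := by
  apply Finset.eq_of_subset_of_card_le
  · intro v hv
    obtain ⟨t, _, rfl⟩ := mem_image.1 hv
    exact Perm.pow_apply_mem_support.2 hi
  · rw [card_image_of_injOn, card_range]
    intro s hs t ht h
    exact pow_inj hC hi (mem_range.1 hs) (mem_range.1 ht) h

theorem prod_supp {C : Perm V} (hC : C.IsCycle) {i : V} (hi : i ∈ C.support) (F : V → ℝ) :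
    ∏ v ∈ C.support, F v = ∏ t ∈ range C.support.card, F ((C ^ t) i) := by
  conv_lhs => rw [← supp_image hC hi]
  rw [Finset.prod_image]
  intro s hs t ht h
  exact pow_inj hC hi (mem_range.1 hs) (mem_range.1 ht) h

/-- the weight of a cycle through `i` is the weight of a closed walk -/
theorem term_eq (A : Matrix V V ℂ) (hA : Dom A) {C : Perm V} (hC : C.IsCycle) {i : V}
    (hi : i ∈ C.support) :
    ‖wt A C.support C‖ * ∏ v ∈ C.support.erase i, (9 / 10 * bv A v)⁻¹ =
      bv A i * (10 / 9) ^ (C.support.card - 1) *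
        om A C.support.card i (fun t => (C ^ ((t : ℕ) + 1)) i) := by
  have hb : ∀ v, bv A v ≠ 0 := fun v => (hA.pos v).ne'
  have h1 : ‖wt A C.support C‖ = ∏ v ∈ C.support, wv A v (C v) := by
    unfold wt
    rw [norm_prod]
    refine Finset.prod_congr rfl fun v hv => ?_
    have h2 : v ≠ C v := fun h => (Perm.mem_support.1 hv) h.symm
    rw [wv, if_neg h2, ← hA.herm v (C v), norm_star]
  have h2 : om A C.support.card i (fun t => (C ^ ((t : ℕ) + 1)) i) =
      ∏ v ∈ C.support, wv A v (C v) / bv A v := by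
    rw [om_cycle, prod_supp hC hi]
    refine Finset.prod_congr rfl fun t _ => ?_
    rw [pow_succ', Perm.mul_apply]
  have h3 : ∏ v ∈ C.support.erase i, (9 / 10 * bv A v)⁻¹ =
      (10 / 9) ^ (C.support.card - 1) * ∏ v ∈ C.support.erase i, (bv A v)⁻¹ := by
    rw [← Finset.card_erase_of_mem hi, ← Finset.prod_const, ← Finset.prod_mul_distrib]
    refine Finset.prod_congr rfl fun v _ => ?_
    rw [mul_inv]
    norm_num
  have h4 : ∏ v ∈ C.support, wv A v (C v) / bv A v =
      (∏ v ∈ C.support, wv A v (C v)) *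
        ((bv A i)⁻¹ * ∏ v ∈ C.support.erase i, (bv A v)⁻¹) := by
    rw [Finset.mul_prod_erase C.support (fun v => (bv A v)⁻¹) hi, ← Finset.prod_mul_distrib]
    rfl
  rw [h1, h2, h3, h4]
  have h5 := hb i
  field_simp

theorem walk_inj {i : V} {N : ℕ} {C C' : Perm V} (hC : C.IsCycle) (hi : i ∈ C.support)
    (hN : C.support.card = N) (hC' : C'.IsCycle) (hi' : i ∈ C'.support)
    (hN' : C'.support.card = N)
    (h : (fun t : Fin N => (C ^ ((t : ℕ) + 1)) i) = fun t : Fin N => (C' ^ ((t : ℕ) + 1)) i) :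
    C = C' := by
  have h0 : ∀ t, t ≤ N → (C ^ t) i = (C' ^ t) i := by
    intro t ht
    rcases Nat.eq_zero_or_pos t with rfl | hpos
    · rfl
    · have h1 := congrFun h ⟨t - 1, by omega⟩
      simp only at h1
      have h2 : t - 1 + 1 = t := by omega
      rwa [h2] at h1
  have hs : C.support = C'.support := by
    rw [← supp_image hC hi, ← supp_image hC' hi', hN, hN']
    refine Finset.image_congr fun t ht => ?_
    exact h0 t (by have := Finset.mem_range.1 (Finset.mem_coe.1 ht); omega)
  ext v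
  by_cases hv : v ∈ C.support
  · have hv2 := hv
    rw [← supp_image hC hi] at hv2
    obtain ⟨t, ht, rfl⟩ := mem_image.1 hv2
    have ht' : t < N := by
      rw [← hN]
      exact mem_range.1 ht
    rw [← Perm.mul_apply, ← pow_succ', h0 (t + 1) ht', pow_succ', Perm.mul_apply, ← h0 t ht'.le]
  · have hv' : v ∉ C'.support := by rwa [← hs]
    rw [Perm.notMem_support.1 hv, Perm.notMem_support.1 hv']

theorem geom (m : ℕ) : ∑ k ∈ range m, ((10 : ℝ) / 9) ^ (k + 1) * (1 / 4) ^ (k + 2) =
    5 / 52 * (1 - (5 / 18) ^ m) := by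
  induction m with
  | zero => norm_num
  | succ m ih =>
    rw [Finset.sum_range_succ, ih]
    have h : ((10 : ℝ) / 9) ^ (m + 1) * (1 / 4) ^ (m + 2) = (5 / 18) ^ m * (5 / 72) := by
      rw [pow_succ, pow_succ (1 / 4 : ℝ) (m + 1), pow_succ (1 / 4 : ℝ) m]
      have : ((5 : ℝ) / 18) ^ m = (10 / 9) ^ m * (1 / 4) ^ m := by
        rw [← mul_pow]
        norm_num
      rw [this]
      ring
    rw [h, pow_succ]
    ring

end ChainAux

theorem ps1 (A : Matrix V V ℂ) (hA : Dom A) (W : Finset V) (i : V) :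
    ∑ C ∈ CZ W i, ‖wt A C.support C‖ * ∏ v ∈ C.support.erase i, (9 / 10 * bv A v)⁻¹ ≤
      bv A i / 10 := by
  classical
  have hb : 0 < bv A i := hA.pos i
  have hmem : ∀ C : Perm V, C ∈ CZ W i → C.IsCycle ∧ i ∈ C.support := by
    intro C hC
    simp only [CZ, Finset.mem_filter, Finset.mem_univ, true_and] at hC
    exact ⟨hC.1, hC.2.1⟩
  have hmaps : ∀ C ∈ CZ W i, C.support.card - 2 ∈ range (Fintype.card V + 1) := by
    intro C _
    have h1 : C.support.card ≤ Fintype.card V := Finset.card_le_univ _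
    exact mem_range.2 (by omega)
  rw [← Finset.sum_fiberwise_of_maps_to hmaps]
  have hfib : ∀ k ∈ range (Fintype.card V + 1),
      ∑ C ∈ (CZ W i).filter (fun C => C.support.card - 2 = k),
        ‖wt A C.support C‖ * ∏ v ∈ C.support.erase i, (9 / 10 * bv A v)⁻¹ ≤
      bv A i * ((10 / 9) ^ (k + 1) * (1 / 4) ^ (k + 2)) := by
    intro k _
    have hcard : ∀ C ∈ (CZ W i).filter (fun C => C.support.card - 2 = k),
        C.IsCycle ∧ i ∈ C.support ∧ C.support.card = k + 2 := by
      intro C hC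
      obtain ⟨h1, h2⟩ := Finset.mem_filter.1 hC
      obtain ⟨h3, h4⟩ := hmem C h1
      have := h3.two_le_card_support
      exact ⟨h3, h4, by omega⟩
    calc ∑ C ∈ (CZ W i).filter (fun C => C.support.card - 2 = k),
          ‖wt A C.support C‖ * ∏ v ∈ C.support.erase i, (9 / 10 * bv A v)⁻¹
        = ∑ C ∈ (CZ W i).filter (fun C => C.support.card - 2 = k),
          bv A i * (10 / 9) ^ (k + 1) *
            om A (k + 2) i (fun t => (C ^ ((t : ℕ) + 1)) i) := by
          refine Finset.sum_congr rfl fun C hC => ?_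
          obtain ⟨h1, h2, h3⟩ := hcard C hC
          rw [term_eq A hA h1 h2, h3]
          rfl
      _ = bv A i * (10 / 9) ^ (k + 1) *
          ∑ C ∈ (CZ W i).filter (fun C => C.support.card - 2 = k),
            om A (k + 2) i (fun t => (C ^ ((t : ℕ) + 1)) i) := by rw [Finset.mul_sum]
      _ ≤ bv A i * (10 / 9) ^ (k + 1) * ∑ f : Fin (k + 2) → V, om A (k + 2) i f := by
          refine mul_le_mul_of_nonneg_left ?_ (by positivity)
          rw [← Finset.sum_image (f := fun f : Fin (k + 2) → V => om A (k + 2) i f)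
            (g := fun C : Perm V => fun t : Fin (k + 2) => (C ^ ((t : ℕ) + 1)) i)]
          · exact Finset.sum_le_sum_of_subset_of_nonneg (Finset.subset_univ _)
              fun f _ _ => om_nonneg A hA _ _ _
          · intro C hC C' hC' h
            obtain ⟨h1, h2, h3⟩ := hcard C (Finset.mem_coe.1 hC)
            obtain ⟨h1', h2', h3'⟩ := hcard C' (Finset.mem_coe.1 hC')
            exact walk_inj h1 h2 h3 h1' h2' h3' h
      _ ≤ bv A i * (10 / 9) ^ (k + 1) * (1 / 4) ^ (k + 2) :=
          mul_le_mul_of_nonneg_left (om_sum A hA _ _) (by positivity)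
      _ = _ := by rw [mul_assoc]
  refine (Finset.sum_le_sum hfib).trans ?_
  rw [← Finset.mul_sum, geom]
  have h1 : (0 : ℝ) ≤ (5 / 18) ^ (Fintype.card V + 1) := by positivity
  nlinarith

end PGC
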