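import Pool.Agent.Lib.PGB.Minor
import Pool.Agent.Lib.PGB.Deriv
import Pool.Agent.Lib.PGB.SAdj
import Pool.Agent.Lib.PGB.StarIneq

/-!
# PGC: permanent on top for strongly diagonally dominant matrices -- definitions

MP_502342_al. If `A` is Hermitian and `∑_{j ≠ i} |a_ij| ≤ a_ii / 4` for all `i` then permanent on top
holds for `A` (all `n`, all partitions). The notation is that of `PGB`.
-/

set_option autoImplicit false

open scoped ComplexOrder
open Finset Equiv

namespace PGC

open PGB

variable {V : Type*} [Fintype V] [DecidableEq V]

/-- the hypothesis: Hermitian, positive diagonal, row sums of the other entries `≤ a_ii / 4` -/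
structure Dom (A : Matrix V V ℂ) : Prop where
  herm : ∀ i j, star (A i j) = A j i
  pos : ∀ i, 0 < (A i i).re
  dom : ∀ i, ∑ j ∈ univ.erase i, ‖A i j‖ ≤ (A i i).re / 4

/-- the absolute value of an off-diagonal entry, `0` on the diagonal -/
noncomputable def wv (A : Matrix V V ℂ) (i j : V) : ℝ := if i = j then 0 else ‖A i j‖

/-- the diagonal entry -/
noncomputable def bv (A : Matrix V V ℂ) (i : V) : ℝ := (A i i).re

/-- the weight of the walk `i, f 0, ..., f (k-1)`, every step divided by the diagonal entry at its
starting point -/
noncomputable def om (A : Matrix V V ℂ) : (k : ℕ) → V → (Fin k → V) → ℝ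
  | 0, _, _ => 1
  | k + 1, i, f => wv A i (f 0) / bv A i * om A k (f 0) (fun t => f t.succ)

end PGC
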