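import Pool.Agent.Lib.PGC.Asm
import Pool.Agent.Lib.PGB.Fin

/-!
# PGC.Fin: diagonal scaling and zero rows
-/

set_option autoImplicit false

open scoped ComplexOrder InnerProductSpace
open Finset Equiv

namespace PGC

open PGB PGB.FinAux

theorem form_dom {n : ℕ} (A : Matrix (Fin n) (Fin n) ℂ) (hA : A.IsHermitian) (d : Fin n → ℝ)
    (hd : ∀ i, 0 < d i)
    (hdom : ∀ i, ∑ j ∈ univ.erase i, ‖A i j‖ * d j ≤ (A i i).re * d i / 4)
    (x : Perm (Fin n) → ℂ) :
    (∑ σ : Perm (Fin n), ∑ τ : Perm (Fin n),
        star (x σ) * (∏ i, A (σ i) (τ i)) * x τ).re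
      ≤ A.permanent.re * ∑ σ : Perm (Fin n), ‖x σ‖ ^ 2 := by
  have hdiag0 : ∀ i, 0 ≤ (A i i).re := by
    intro i
    have h1 : 0 ≤ ∑ j ∈ univ.erase i, ‖A i j‖ * d j :=
      Finset.sum_nonneg fun j _ => mul_nonneg (norm_nonneg _) (hd j).le
    have h2 := h1.trans (hdom i)
    by_contra h
    push Not at h
    have := mul_neg_of_neg_of_pos h (hd i)
    linarith
  by_cases hz : ∃ i, (A i i).re = 0
  · obtain ⟨i, hi⟩ := hz
    have hrow : ∀ j, A i j = 0 := by
      intro j
      by_cases hij : j = i
      · subst hij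
        have h1 : (A j j).im = 0 := by
          have := hA.coe_re_apply_self j
          rw [← this]
          simp
        exact Complex.ext hi h1
      · have h1 := hdom i
        rw [hi, zero_mul, zero_div] at h1
        have h2 : ‖A i j‖ * d j ≤ 0 :=
          (Finset.single_le_sum (f := fun j => ‖A i j‖ * d j)
            (fun k _ => mul_nonneg (norm_nonneg _) (hd k).le)
            (mem_erase.2 ⟨hij, mem_univ j⟩)).trans h1
        have h3 : ‖A i j‖ ≤ 0 := by
          by_contra h
          push Not at h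
          have := mul_pos h (hd j)
          linarith
        exact norm_le_zero_iff.1 h3
    have hprod : ∀ σ τ : Perm (Fin n), ∏ k, A (σ k) (τ k) = 0 := by
      intro σ τ
      refine Finset.prod_eq_zero (mem_univ (σ⁻¹ i)) ?_
      have : σ (σ⁻¹ i) = i := by simp
      rw [this]
      exact hrow _
    have hper : A.permanent = 0 := by
      rw [← row_sum A 1]
      exact Finset.sum_eq_zero fun τ _ => hprod 1 τ
    rw [hper]
    simp only [hprod]
    simp
  · push Not at hz
    have hpos : ∀ i, 0 < (A i i).re := fun i => lt_of_le_of_ne (hdiag0 i) (hz i).symm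
    have hnorm : ∀ i j, ‖scl d A i j‖ = d i * (‖A i j‖ * d j) := by
      intro i j
      show ‖(d i : ℂ) * A i j * (d j : ℂ)‖ = _
      rw [norm_mul, norm_mul, Complex.norm_real, Complex.norm_real, Real.norm_eq_abs,
        Real.norm_eq_abs, abs_of_pos (hd i), abs_of_pos (hd j)]
      ring
    have hre : ∀ i, (scl d A i i).re = d i * ((A i i).re * d i) := by
      intro i
      show ((d i : ℂ) * A i i * (d i : ℂ)).re = _
      rw [Complex.re_mul_ofReal, Complex.re_ofReal_mul]
      ring
    have hD : Dom (scl d A) := by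
      refine ⟨?_, ?_, ?_⟩
      · intro i j
        show star ((d i : ℂ) * A i j * (d j : ℂ)) = (d j : ℂ) * A j i * (d i : ℂ)
        rw [star_mul', star_mul', hA.apply]
        simp only [Complex.star_def, Complex.conj_ofReal]
        ring
      · intro i
        rw [hre]
        exact mul_pos (hd i) (mul_pos (hpos i) (hd i))
      · intro i
        rw [hre]
        simp only [hnorm]
        rw [← Finset.mul_sum]
        have := mul_le_mul_of_nonneg_left (hdom i) (hd i).le
        calc _ ≤ _ := this
          _ = _ := by ring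
    have h1 := D_le_dom (reg n) (reg_uni n) (scl d A) hD
    rw [D_scale, pr_scale, mul_smul] at h1
    set c : ℝ := ∏ i ∈ (univ : Finset (Fin n)), d i ^ 2 with hc
    have hcpos : 0 < c := Finset.prod_pos fun i _ => pow_pos (hd i) 2
    refine form_of_le ?_ x
    rw [ContinuousLinearMap.le_def] at h1 ⊢
    rw [← smul_sub] at h1
    have h2 : (0 : ℂ) ≤ ((c⁻¹ : ℝ) : ℂ) := by
      rw [Complex.zero_le_real]
      positivity
    have h3 := h1.smul_of_nonneg h2
    rw [smul_smul] at h3
    have h4 : ((c⁻¹ : ℝ) : ℂ) * (c : ℂ) = 1 := by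
      rw [← Complex.ofReal_mul, inv_mul_cancel₀ hcpos.ne', Complex.ofReal_one]
    rw [h4, one_smul] at h3
    exact h3

end PGC
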