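import Pool.Agent.Lib.PGC.Chain

/-!
# PGC.PS2: sums over cycles through an edge

PROOF of `ps2`. Fix `a ≠ b`. For a cycle `C` with `C a = b`, `card C.support = m + 2 ≥ 3`, the vertices
of the support are `b = (C^0) b, (C^1) b, ..., (C^m) b, (C^(m+1)) b = a`. An element
`v ∈ C.support.erase a` is `(C^k) b` with a unique `k ≤ m`; put `l = m - k` (so `k + l = m ≥ 1`),
`f t = (C^(t+1)) b` (`t < k`) and `g t = (C⁻¹^(t+1)) a` (`t < l`); `g (l-1) = C v`. Then (using
`wv A i j = wv A j i`)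
`∏_{h ∈ support, h ≠ a, v} wv h (C h) = ∏_{t < k} wv ((C^t) b) ((C^(t+1)) b) *
   ∏_{t < l} wv ((C⁻¹^t) a) ((C⁻¹^(t+1)) a)`,
and with the factors `bv v * bv (C v) / (bv a * bv b)` and `∏_{h ∈ support, h ≠ a, b} (9/10 * bv h)⁻¹` the
whole term is `(10/9)^(k+l) * om A k b f * om A l a g` (`om_cycle` for `C` and for `C⁻¹`). The map
`(C, v) ↦ (k, l, f, g)` is injective (`C` is determined by its values on `b, f 0, ..., f (k-1)` and
`g (l-1), ..., g 0, a`), so the sum is at most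
`∑_{(k, l) ≠ (0, 0)} (10/9)^(k+l) (∑_f om A k b f) (∑_g om A l a g) ≤ ∑_{(k, l) ≠ (0,0)} (5/18)^(k+l)
  = (18/13)^2 - 1 = 155/169 ≤ 1` (finite sums; `k, l ≤ Fintype.card V`).
-/

set_option autoImplicit false

open scoped ComplexOrder
open Finset Equiv

namespace PGC

open PGB

variable {V : Type*} [Fintype V] [DecidableEq V]

namespace PS2Aux

theorem pw_inj {C : Perm V} (hC : C.IsCycle) {x : V} (hx : C x ≠ x) {i j : ℕ}
    (hi : i < C.support.card) (hj : j < C.support.card) (h : (C ^ i) x = (C ^ j) x) : i = j := by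
  have h1 : C ^ i = C ^ j := hC.pow_eq_pow_iff.2 ⟨x, hx, h⟩
  rw [← hC.orderOf] at hi hj
  exact pow_injOn_Iio_orderOf hi hj h1

theorem pw_card {C : Perm V} (hC : C.IsCycle) (x : V) : (C ^ C.support.card) x = x := by
  rw [← hC.orderOf, pow_orderOf_eq_one]
  rfl

theorem pw_ex {C : Perm V} (hC : C.IsCycle) {a u : V} (ha : C a ≠ a) (hu : C u ≠ u) :
    ∃ i < C.support.card, (C ^ i) a = u := by
  obtain ⟨i, hi⟩ := hC.exists_pow_eq ha hu
  have hpos : 0 < C.support.card := Finset.card_pos.2 ⟨a, Perm.mem_support.2 ha⟩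
  refine ⟨i % C.support.card, Nat.mod_lt _ hpos, ?_⟩
  rw [← hC.orderOf, pow_mod_orderOf]
  exact hi

theorem pw_supp {C : Perm V} {a : V} (ha : C a ≠ a) (i : ℕ) : C ((C ^ i) a) ≠ (C ^ i) a := by
  intro h
  apply ha
  have h1 : (C ^ i) (C a) = (C ^ i) a := by
    rw [← Perm.mul_apply, ← pow_succ, pow_succ', Perm.mul_apply]
    exact h
  exact (C ^ i).injective h1

/-- the cycles with `C a = b` -/
structure Cy (a b : V) (m : ℕ) (C : Perm V) : Prop where
  cyc : C.IsCycle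
  ab : C a = b
  card : C.support.card = m + 2

variable {a b : V} {m : ℕ} {C : Perm V}

theorem Cy.ha (h : Cy a b m C) (hab : a ≠ b) : C a ≠ a := by
  rw [h.ab]
  exact hab.symm

theorem Cy.hb (h : Cy a b m C) (hab : a ≠ b) : C b ≠ b := by
  have := pw_supp (h.ha hab) 1
  rwa [pow_one, h.ab] at this

theorem Cy.pb (h : Cy a b m C) (j : ℕ) : (C ^ j) b = (C ^ (j + 1)) a := by
  rw [← h.ab, ← Perm.mul_apply, ← pow_succ]

theorem Cy.top (h : Cy a b m C) : (C ^ (m + 1)) b = a := by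
  rw [h.pb, ← h.card]
  exact pw_card h.cyc a

theorem Cy.inv (h : Cy a b m C) {t : ℕ} (ht : t ≤ m + 1) :
    (C⁻¹ ^ t) a = (C ^ (m + 1 - t)) b := by
  have h1 : (C ^ t) ((C ^ (m + 1 - t)) b) = a := by
    rw [← Perm.mul_apply, ← pow_add, Nat.add_sub_cancel' ht, h.top]
  rw [inv_pow, Perm.inv_eq_iff_eq]
  exact h1.symm

theorem Cy.mem (h : Cy a b m C) (hab : a ≠ b) {j : ℕ} (hj : j ≤ m) :
    (C ^ j) b ∈ C.support.erase a := by
  rw [Finset.mem_erase, Perm.mem_support]
  refine ⟨?_, pw_supp (h.hb hab) j⟩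
  rw [h.pb]
  intro h1
  have h2 := pw_inj h.cyc (h.ha hab) (i := j + 1) (j := 0) (by rw [h.card]; omega)
    (by rw [h.card]; omega) (by rw [pow_zero, Perm.one_apply]; exact h1)
  omega

theorem Cy.inj (h : Cy a b m C) (hab : a ≠ b) {i j : ℕ} (hi : i ≤ m) (hj : j ≤ m)
    (he : (C ^ i) b = (C ^ j) b) : i = j :=
  pw_inj h.cyc (h.hb hab) (by rw [h.card]; omega) (by rw [h.card]; omega) he

theorem Cy.surj (h : Cy a b m C) (hab : a ≠ b) {v : V} (hv : v ∈ C.support.erase a) :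
    ∃ j ≤ m, (C ^ j) b = v := by
  rw [Finset.mem_erase, Perm.mem_support] at hv
  obtain ⟨i, hi, he⟩ := pw_ex h.cyc (h.ha hab) hv.2
  rw [h.card] at hi
  cases i with
  | zero =>
    rw [pow_zero, Perm.one_apply] at he
    exact absurd he.symm hv.1
  | succ j =>
    refine ⟨j, by omega, ?_⟩
    rw [h.pb]
    exact he

theorem Cy.sum_eq (h : Cy a b m C) (hab : a ≠ b) (G : V → ℝ) :
    ∑ v ∈ C.support.erase a, G v = ∑ j ∈ range (m + 1), G ((C ^ j) b) := by
  symm
  refine Finset.sum_nbij (fun j => (C ^ j) b) ?_ ?_ ?_ (fun j _ => rfl)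
  · intro j hj
    rw [Finset.mem_range] at hj
    exact h.mem hab (by omega)
  · intro i hi j hj he
    rw [Finset.mem_coe, Finset.mem_range] at hi hj
    exact h.inj hab (by omega) (by omega) he
  · intro v hv
    obtain ⟨j, hj, he⟩ := h.surj hab (Finset.mem_coe.1 hv)
    exact ⟨j, by rw [Finset.mem_coe, Finset.mem_range]; omega, he⟩

theorem Cy.prod_eq (h : Cy a b m C) (hab : a ≠ b) (G : V → ℝ) {k : ℕ} (hk : k ≤ m) :
    ∏ v ∈ (C.support.erase a).erase ((C ^ k) b), G v =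
      ∏ j ∈ (range (m + 1)).erase k, G ((C ^ j) b) := by
  symm
  refine Finset.prod_nbij (fun j => (C ^ j) b) ?_ ?_ ?_ (fun j _ => rfl)
  · intro j hj
    rw [Finset.mem_erase, Finset.mem_range] at hj
    rw [Finset.mem_erase]
    refine ⟨fun he => hj.1 (h.inj hab (by omega) hk he), h.mem hab (by omega)⟩
  · intro i hi j hj he
    rw [Finset.mem_coe, Finset.mem_erase, Finset.mem_range] at hi hj
    exact h.inj hab (by omega) (by omega) he
  · intro v hv
    rw [Finset.mem_coe, Finset.mem_erase] at hv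
    obtain ⟨j, hj, he⟩ := h.surj hab hv.2
    refine ⟨j, ?_, he⟩
    rw [Finset.mem_coe, Finset.mem_erase, Finset.mem_range]
    refine ⟨?_, by omega⟩
    rintro rfl
    exact hv.1 he.symm

theorem range_erase (F : ℕ → ℝ) (k l : ℕ) :
    ∏ j ∈ (range (k + l + 1)).erase k, F j =
      (∏ j ∈ range k, F j) * ∏ t ∈ range l, F (k + 1 + t) := by
  have h1 : (range (k + l + 1)).erase k = range k ∪ Finset.Ico (k + 1) (k + l + 1) := by
    ext j
    rw [Finset.mem_erase, Finset.mem_union, Finset.mem_range, Finset.mem_range, Finset.mem_Ico]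
    omega
  have h2 : Disjoint (range k) (Finset.Ico (k + 1) (k + l + 1)) := by
    rw [Finset.disjoint_left]
    intro j hj hj'
    rw [Finset.mem_range] at hj
    rw [Finset.mem_Ico] at hj'
    omega
  rw [h1, Finset.prod_union h2, Finset.prod_Ico_eq_prod_range]
  congr 3
  omega

theorem wv_comm (A : Matrix V V ℂ) (hA : Dom A) (i j : V) : wv A i j = wv A j i := by
  unfold wv
  by_cases h : i = j
  · rw [if_pos h, if_pos h.symm]
  · rw [if_neg h, if_neg (fun h1 => h h1.symm), ← hA.herm j i, norm_star]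

theorem wv_nonneg (A : Matrix V V ℂ) (i j : V) : 0 ≤ wv A i j := by
  unfold wv
  split_ifs
  · exact le_rfl
  · exact norm_nonneg _

/-- the term of the sum -/
noncomputable def tm (A : Matrix V V ℂ) (a b : V) (C : Perm V) (v : V) : ℝ :=
  (∏ h ∈ (C.support.erase a).erase v, wv A h (C h)) *
    (bv A v * bv A (C v) / (bv A a * bv A b)) *
    ∏ h ∈ (C.support.erase a).erase b, (9 / 10 * bv A h)⁻¹

theorem real_id (w β : ℕ → ℝ) (hβ : ∀ j, 0 < β j) (k l : ℕ) :
    ((∏ j ∈ range k, w j) * ∏ t ∈ range l, w (k + 1 + t)) *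
      (β k * β (k + 1) / (β (k + l + 1) * β 0)) *
      (∏ t ∈ range (k + l), (9 / 10 * β (t + 1))⁻¹) =
    (10 / 9) ^ (k + l) * ((∏ t ∈ range k, w t / β t) *
      ∏ t ∈ range l, w (k + l - t) / β (k + l + 1 - t)) := by
  have e1 : ∏ t ∈ range l, w (k + l - t) / β (k + l + 1 - t) =
      ∏ t ∈ range l, w (k + 1 + t) / β (k + 2 + t) := by
    rw [← Finset.prod_range_reflect]
    refine Finset.prod_congr rfl fun t ht => ?_
    rw [Finset.mem_range] at ht
    have h1 : k + l - (l - 1 - t) = k + 1 + t := by omega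
    have h2 : k + l + 1 - (l - 1 - t) = k + 2 + t := by omega
    rw [h1, h2]
  have e2 : ∏ t ∈ range (k + l), (9 / 10 * β (t + 1))⁻¹ =
      (10 / 9) ^ (k + l) * (∏ t ∈ range (k + l), β (t + 1))⁻¹ := by
    rw [← Finset.prod_inv_distrib, ← Finset.card_range (k + l), ← Finset.prod_const,
      Finset.card_range, ← Finset.prod_mul_distrib]
    refine Finset.prod_congr rfl fun t _ => ?_
    rw [mul_inv]
    norm_num
  have e3 : (∏ t ∈ range (k + l + 2), β t) =
      (∏ t ∈ range (k + l), β (t + 1)) * β 0 * β (k + l + 1) := by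
    rw [Finset.prod_range_succ, Finset.prod_range_succ']
  have e4 : (∏ t ∈ range (k + l + 2), β t) =
      (∏ t ∈ range k, β t) * β k * β (k + 1) * ∏ t ∈ range l, β (k + 2 + t) := by
    have : k + l + 2 = k + 2 + l := by omega
    rw [this, Finset.prod_range_add, Finset.prod_range_succ, Finset.prod_range_succ]
  rw [e1, e2, Finset.prod_div_distrib, Finset.prod_div_distrib]
  have p1 : 0 < ∏ t ∈ range (k + l), β (t + 1) := Finset.prod_pos fun t _ => hβ _
  have p2 : 0 < ∏ t ∈ range k, β t := Finset.prod_pos fun t _ => hβ _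
  have p3 : 0 < ∏ t ∈ range l, β (k + 2 + t) := Finset.prod_pos fun t _ => hβ _
  have p4 := hβ 0
  have p5 := hβ (k + l + 1)
  have p6 := hβ k
  have p7 := hβ (k + 1)
  rw [e3] at e4
  generalize (∏ t ∈ range (k + l), β (t + 1)) = P1 at *
  generalize (∏ t ∈ range k, β t) = P2 at *
  generalize (∏ t ∈ range l, β (k + 2 + t)) = P3 at *
  generalize (∏ j ∈ range k, w j) = W1
  generalize (∏ t ∈ range l, w (k + 1 + t)) = W2
  generalize ((10 : ℝ) / 9) ^ (k + l) = T
  have key : β k * β (k + 1) / (β (k + l + 1) * β 0) * P1⁻¹ = 1 / (P2 * P3) := by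
    rw [← div_eq_mul_inv, div_div, div_eq_div_iff (by positivity) (by positivity)]
    linarith
  calc W1 * W2 * (β k * β (k + 1) / (β (k + l + 1) * β 0)) * (T * P1⁻¹)
      = T * (W1 * W2) * (β k * β (k + 1) / (β (k + l + 1) * β 0) * P1⁻¹) := by ring
    _ = T * (W1 * W2) * (1 / (P2 * P3)) := by rw [key]
    _ = T * (W1 / P2 * (W2 / P3)) := by field_simp

theorem tm_eq (A : Matrix V V ℂ) (hA : Dom A) (hab : a ≠ b) {k l : ℕ} (h : Cy a b (k + l) C) :
    tm A a b C ((C ^ k) b) = (10 / 9) ^ (k + l) *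
      (om A k b (fun t => (C ^ ((t : ℕ) + 1)) b) *
        om A l a (fun t => (C⁻¹ ^ ((t : ℕ) + 1)) a)) := by
  rw [om_cycle, om_cycle]
  have e1 : ∏ h ∈ (C.support.erase a).erase ((C ^ k) b), wv A h (C h) =
      (∏ j ∈ range k, wv A ((C ^ j) b) ((C ^ (j + 1)) b)) *
        ∏ t ∈ range l, wv A ((C ^ (k + 1 + t)) b) ((C ^ (k + 1 + t + 1)) b) := by
    rw [h.prod_eq hab (fun x => wv A x (C x)) (by omega : k ≤ k + l),
      range_erase (fun j => wv A ((C ^ j) b) (C ((C ^ j) b)))]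
    simp only [← Perm.mul_apply, ← pow_succ']
  have e2 : ∏ h ∈ (C.support.erase a).erase b, (9 / 10 * bv A h)⁻¹ =
      ∏ t ∈ range (k + l), (9 / 10 * bv A ((C ^ (t + 1)) b))⁻¹ := by
    have h1 := h.prod_eq hab (fun x => (9 / 10 * bv A x)⁻¹) (Nat.zero_le (k + l))
    rw [pow_zero, Perm.one_apply] at h1
    rw [h1]
    have h2 := range_erase (fun j => (9 / 10 * bv A ((C ^ j) b))⁻¹) 0 (k + l)
    rw [zero_add, Finset.range_zero, Finset.prod_empty, one_mul] at h2
    rw [h2]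
    refine Finset.prod_congr rfl fun t _ => ?_
    rw [add_comm t 1, zero_add]
  have e3 : ∏ t ∈ range l, wv A ((C⁻¹ ^ t) a) ((C⁻¹ ^ (t + 1)) a) / bv A ((C⁻¹ ^ t) a) =
      ∏ t ∈ range l, wv A ((C ^ (k + l - t)) b) ((C ^ (k + l - t + 1)) b) /
        bv A ((C ^ (k + l + 1 - t)) b) := by
    refine Finset.prod_congr rfl fun t ht => ?_
    rw [Finset.mem_range] at ht
    rw [h.inv (by omega : t ≤ k + l + 1), h.inv (by omega : t + 1 ≤ k + l + 1)]
    have h1 : k + l + 1 - (t + 1) = k + l - t := by omega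
    have h2 : k + l + 1 - t = k + l - t + 1 := by omega
    rw [h1, h2, wv_comm A hA]
  have e4 : C ((C ^ k) b) = (C ^ (k + 1)) b := by
    rw [← Perm.mul_apply, ← pow_succ']
  have hβ : ∀ j, 0 < bv A ((C ^ j) b) := fun j => hA.pos _
  have h5 := real_id (fun j => wv A ((C ^ j) b) ((C ^ (j + 1)) b)) (fun j => bv A ((C ^ j) b))
    hβ k l
  simp only [h.top, pow_zero, Perm.one_apply] at h5
  unfold tm
  rw [e1, e2, e3, e4]
  exact h5

theorem agree {C' : Perm V} (hab : a ≠ b) (h : Cy a b m C) (h' : Cy a b m C')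
    (he : ∀ i ≤ m + 2, (C ^ i) a = (C' ^ i) a) : C = C' := by
  ext u
  by_cases hu : C u = u
  · by_cases hu' : C' u = u
    · rw [hu, hu']
    · obtain ⟨i, hi, h1⟩ := pw_ex h'.cyc (h'.ha hab) hu'
      rw [h'.card] at hi
      rw [← he i hi.le] at h1
      have h2 := pw_supp (h.ha hab) i
      rw [h1] at h2
      exact absurd hu h2
  · obtain ⟨i, hi, h1⟩ := pw_ex h.cyc (h.ha hab) hu
    rw [h.card] at hi
    have h2 : C u = (C ^ (i + 1)) a := by
      rw [← h1, ← Perm.mul_apply, ← pow_succ']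
    have h3 : C' u = (C' ^ (i + 1)) a := by
      rw [← h1, he i hi.le, ← Perm.mul_apply, ← pow_succ']
    rw [h2, h3]
    exact he _ (by omega)

theorem injF {C' : Perm V} (hab : a ≠ b) {k l : ℕ} (h : Cy a b (k + l) C)
    (h' : Cy a b (k + l) C')
    (hf : (fun t : Fin k => (C ^ ((t : ℕ) + 1)) b) = fun t : Fin k => (C' ^ ((t : ℕ) + 1)) b)
    (hg : (fun t : Fin l => (C⁻¹ ^ ((t : ℕ) + 1)) a) = fun t : Fin l => (C'⁻¹ ^ ((t : ℕ) + 1)) a) :
    C = C' := by
  refine agree hab h h' fun i hi => ?_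
  rcases Nat.lt_or_ge i (k + 2) with h1 | h1
  · cases i with
    | zero => rfl
    | succ i =>
      rw [← h.pb, ← h'.pb]
      cases i with
      | zero => rfl
      | succ i =>
        exact congrFun hf ⟨i, by omega⟩
  · have h2 : (C ^ i) a = (C⁻¹ ^ (k + l + 2 - i)) a := by
      obtain ⟨j, rfl⟩ : ∃ j, i = j + 1 := ⟨i - 1, by omega⟩
      rw [← h.pb, h.inv (by omega)]
      congr 2
      omega
    have h3 : (C' ^ i) a = (C'⁻¹ ^ (k + l + 2 - i)) a := by
      obtain ⟨j, rfl⟩ : ∃ j, i = j + 1 := ⟨i - 1, by omega⟩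
      rw [← h'.pb, h'.inv (by omega)]
      congr 2
      omega
    rw [h2, h3]
    obtain ⟨j, hj⟩ : ∃ j, j = k + l + 2 - i := ⟨_, rfl⟩
    rw [← hj]
    cases j with
    | zero => rfl
    | succ j => exact congrFun hg ⟨j, by omega⟩

open Classical in
theorem fiber (A : Matrix V V ℂ) (hA : Dom A) (hab : a ≠ b) (k l : ℕ) (S : Finset (Perm V))
    (hS : ∀ C ∈ S, Cy a b (k + l) C) :
    ∑ C ∈ S, tm A a b C ((C ^ k) b) ≤ (5 / 18) ^ k * (5 / 18) ^ l := by
  have h1 : ∑ C ∈ S, tm A a b C ((C ^ k) b) = (10 / 9) ^ (k + l) *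
      ∑ p ∈ S.image (fun C : Perm V => ((fun t : Fin k => (C ^ ((t : ℕ) + 1)) b),
        (fun t : Fin l => (C⁻¹ ^ ((t : ℕ) + 1)) a))), om A k b p.1 * om A l a p.2 := by
    rw [Finset.sum_image, Finset.mul_sum]
    · exact Finset.sum_congr rfl fun C hC => tm_eq A hA hab (hS C hC)
    · intro C hC C' hC' he
      exact injF hab (hS C hC) (hS C' hC') (congrArg Prod.fst he) (congrArg Prod.snd he)
  have h2 : ∑ p ∈ S.image (fun C : Perm V => ((fun t : Fin k => (C ^ ((t : ℕ) + 1)) b),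
        (fun t : Fin l => (C⁻¹ ^ ((t : ℕ) + 1)) a))), om A k b p.1 * om A l a p.2 ≤
      (1 / 4) ^ k * (1 / 4) ^ l := by
    refine (Finset.sum_le_sum_of_subset_of_nonneg (Finset.subset_univ _)
      fun p _ _ => mul_nonneg (om_nonneg A hA _ _ _) (om_nonneg A hA _ _ _)).trans ?_
    rw [← Finset.univ_product_univ, Finset.sum_product]
    simp only [← Finset.mul_sum]
    rw [← Finset.sum_mul]
    exact mul_le_mul (om_sum A hA k b) (om_sum A hA l a)
      (Finset.sum_nonneg fun g _ => om_nonneg A hA _ _ _) (by positivity)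
  rw [h1]
  refine (mul_le_mul_of_nonneg_left h2 (by positivity)).trans (le_of_eq ?_)
  rw [pow_add, mul_mul_mul_comm, ← mul_pow, ← mul_pow]
  norm_num

theorem geo (N : ℕ) (hN : 1 ≤ N) :
    ∑ p ∈ (range N ×ˢ range N).erase ((0 : ℕ), (0 : ℕ)), (5 / 18 : ℝ) ^ p.1 * (5 / 18) ^ p.2 ≤ 1 := by
  have h0 : ((0 : ℕ), (0 : ℕ)) ∈ range N ×ˢ range N := by
    rw [Finset.mem_product]
    exact ⟨Finset.mem_range.2 hN, Finset.mem_range.2 hN⟩
  have h1 := Finset.add_sum_erase _ (fun p : ℕ × ℕ => (5 / 18 : ℝ) ^ p.1 * (5 / 18) ^ p.2) h0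
  have h2 : ∑ p ∈ range N ×ˢ range N, (5 / 18 : ℝ) ^ p.1 * (5 / 18) ^ p.2 =
      (∑ i ∈ range N, (5 / 18 : ℝ) ^ i) * ∑ i ∈ range N, (5 / 18 : ℝ) ^ i := by
    rw [Finset.sum_product, Finset.sum_mul_sum]
  have h3 : ∑ i ∈ range N, (5 / 18 : ℝ) ^ i ≤ 18 / 13 := by
    have h4 := mul_neg_geom_sum (5 / 18 : ℝ) N
    have h5 : (0 : ℝ) ≤ (5 / 18) ^ N := by positivity
    linarith
  have h6 : 0 ≤ ∑ i ∈ range N, (5 / 18 : ℝ) ^ i := Finset.sum_nonneg fun i _ => by positivity
  rw [h2] at h1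
  simp only [pow_zero, mul_one] at h1
  nlinarith

end PS2Aux

open PS2Aux

theorem ps2 (A : Matrix V V ℂ) (hA : Dom A) (a b : V) (hab : a ≠ b) :
    ∑ C ∈ (CC (univ : Finset V)).filter (fun C => C a = b ∧ 3 ≤ C.support.card),
      ∑ v ∈ C.support.erase a,
        (∏ h ∈ (C.support.erase a).erase v, wv A h (C h)) *
          (bv A v * bv A (C v) / (bv A a * bv A b)) *
          ∏ h ∈ (C.support.erase a).erase b, (9 / 10 * bv A h)⁻¹ ≤ 1 := by
  classical
  have hN : 1 ≤ Fintype.card V := Fintype.card_pos_iff.2 ⟨a⟩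
  set Q : Finset (Perm V) :=
    (CC (univ : Finset V)).filter (fun C => C a = b ∧ 3 ≤ C.support.card) with hQ
  have hQm : ∀ C ∈ Q, C.IsCycle ∧ C a = b ∧ 3 ≤ C.support.card := by
    intro C hC
    rw [hQ, Finset.mem_filter, CC, Finset.mem_filter] at hC
    exact ⟨hC.1.2.1, hC.2⟩
  have hcard : ∀ C : Perm V, C.support.card ≤ Fintype.card V := fun C => Finset.card_le_univ _
  clear_value Q
  calc ∑ C ∈ Q, ∑ v ∈ C.support.erase a,
        (∏ h ∈ (C.support.erase a).erase v, wv A h (C h)) *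
          (bv A v * bv A (C v) / (bv A a * bv A b)) *
          ∏ h ∈ (C.support.erase a).erase b, (9 / 10 * bv A h)⁻¹
      = ∑ C ∈ Q, ∑ p ∈ Finset.HasAntidiagonal.antidiagonal (C.support.card - 2),
          tm A a b C ((C ^ p.1) b) := by
        refine Finset.sum_congr rfl fun C hC => ?_
        obtain ⟨h1, h2, h3⟩ := hQm C hC
        have h4 : Cy a b (C.support.card - 2) C := ⟨h1, h2, by omega⟩
        rw [Finset.Nat.sum_antidiagonal_eq_sum_range_succ
          (fun i _ => tm A a b C ((C ^ i) b))]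
        exact h4.sum_eq hab (fun v => tm A a b C v)
    _ = ∑ p ∈ (range (Fintype.card V) ×ˢ range (Fintype.card V)).erase ((0 : ℕ), (0 : ℕ)),
          ∑ C ∈ Q.filter (fun C => C.support.card = p.1 + p.2 + 2),
            tm A a b C ((C ^ p.1) b) := by
        refine Finset.sum_comm' fun C p => ?_
        rw [Finset.HasAntidiagonal.mem_antidiagonal, Finset.mem_filter, Finset.mem_erase, Finset.mem_product,
          Finset.mem_range, Finset.mem_range]
        constructor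
        · rintro ⟨hC, hp⟩
          have h3 := (hQm C hC).2.2
          have h4 := hcard C
          refine ⟨⟨hC, by omega⟩, ?_, by omega, by omega⟩
          intro h5
          rw [h5] at hp
          simp only at hp
          omega
        · rintro ⟨⟨hC, hp⟩, -⟩
          exact ⟨hC, by omega⟩
    _ ≤ ∑ p ∈ (range (Fintype.card V) ×ˢ range (Fintype.card V)).erase ((0 : ℕ), (0 : ℕ)),
          (5 / 18 : ℝ) ^ p.1 * (5 / 18) ^ p.2 := by
        refine Finset.sum_le_sum fun p _ => ?_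
        refine fiber A hA hab p.1 p.2 _ fun C hC => ?_
        rw [Finset.mem_filter] at hC
        obtain ⟨h1, h2, -⟩ := hQm C hC.1
        exact ⟨h1, h2, hC.2⟩
    _ ≤ 1 := geo _ hN

end PGC
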